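import Pool.Agent.MP_b50963_lc.NN
import Pool.Agent.MP_b50963_lc.Herm

-- part MP_b50963_lc.Lev1
section

/-!
Provable limits, polynomials in `x` and `(1 + 1 / (c x)) ^ x`, and the approximation principle.
-/

set_option autoImplicit false

namespace Pool.Agent.MP_b50963_lc

open Set Filter Topology Real Polynomial

def Lo (y : Fn) (θ : ℝ) : Prop := ∀ r : ℚ, (r : ℝ) < θ → NN (y - cq r)
/-- Provable limit. -/
def Lim (y : Fn) (θ : ℝ) : Prop := Lo y θ ∧ Lo (-y) (-θ)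

section
variable {y y' : Fn} {θ θ' : ℝ}

theorem Lo.const (q : ℚ) : Lo (cq q) q := fun r h =>
  (nn_cq (q := q - r) (sub_nonneg.2 (by exact_mod_cast h.le))).eq (by funext x; simp)

theorem Lim.const (q : ℚ) : Lim (cq q) q :=
  ⟨Lo.const q, by
    have := Lo.const (-q)
    rwa [Rat.cast_neg, show cq (-q) = -cq q by funext x; simp] at this⟩

theorem Lim.neg (h : Lim y θ) : Lim (-y) (-θ) := ⟨h.2, by simpa using h.1⟩

theorem Lo.add (h : Lo y θ) (h' : Lo y' θ') : Lo (y + y') (θ + θ') := fun r hr => by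
  obtain ⟨s, h1, h2⟩ := exists_rat_btwn (show r - θ' < θ by linarith)
  exact ((h s h2).add (h' (r - s) (by push_cast; linarith))).eq (by funext x; simp; ring)

theorem Lim.add (h : Lim y θ) (h' : Lim y' θ') : Lim (y + y') (θ + θ') :=
  ⟨h.1.add h'.1, by rw [neg_add, neg_add]; exact h.2.add h'.2⟩

theorem Lim.hi (h : Lim y θ) (r : ℚ) (hr : θ < r) : NN (cq r - y) :=
  (h.2 (-r) (by push_cast; linarith)).eq (by funext x; simp; ring)

theorem Lim.mul_lo (h : Lim y θ) (h' : Lim y' θ') : Lo (y * y') (θ * θ') := fun r hr => by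
  obtain ⟨ε, e0, e1⟩ := Metric.eventually_nhds_iff.1
    ((continuous_mul.tendsto (θ, θ')).eventually_const_lt hr)
  have k : ∀ a b : ℚ, |a - θ| < ε → |b - θ'| < ε → NN (cq (a * b - r)) := fun a b h1 h2 =>
    nn_cq (sub_nonneg.2 (by
      have : (r : ℝ) < a * b := e1 (y := (a, b)) (by simp [Prod.dist_eq, Real.dist_eq, h1, h2])
      exact_mod_cast this.le))
  obtain ⟨a, a1, a2⟩ := exists_rat_btwn (show θ - ε < θ by linarith)
  obtain ⟨a', a3, a4⟩ := exists_rat_btwn (show θ < θ + ε by linarith)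
  obtain ⟨b, b1, b2⟩ := exists_rat_btwn (show θ' - ε < θ' by linarith)
  obtain ⟨b', b3, b4⟩ := exists_rat_btwn (show θ' < θ' + ε by linarith)
  have c1 : |a - θ| < ε := abs_lt.2 ⟨by linarith, by linarith⟩
  have c2 : |a' - θ| < ε := abs_lt.2 ⟨by linarith, by linarith⟩
  have c3 : |b - θ'| < ε := abs_lt.2 ⟨by linarith, by linarith⟩
  have c4 : |b' - θ'| < ε := abs_lt.2 ⟨by linarith, by linarith⟩
  have p : 0 < (a' - a) * (b' - b) := mul_pos (sub_pos.2 (by exact_mod_cast a2.trans a3))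
    (sub_pos.2 (by exact_mod_cast b2.trans b3))
  refine NN.cancel ((((((h.hi a' a3).mul (h'.hi b' b3)).mul (k a b c1 c3)).add
    (((h.1 a a2).mul (h'.hi b' b3)).mul (k a' b c2 c3))).add
    ((((h.hi a' a3).mul (h'.1 b b2)).mul (k a b' c1 c4)).add
    (((h.1 a a2).mul (h'.1 b b2)).mul (k a' b' c2 c4)))).eq ?_) (Fp.cq p)
  funext x; simp; ring

theorem Lim.mul (h : Lim y θ) (h' : Lim y' θ') : Lim (y * y') (θ * θ') :=
  ⟨h.mul_lo h', by rw [← neg_mul, ← neg_mul]; exact h.neg.mul_lo h'⟩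

theorem Lim.poly (h : Lim y θ) (P : ℚ[X]) : Lim (aeval y P) (aeval θ P) := by
  induction P using Polynomial.recOnHorner with
  | M0 => simpa [show cq 0 = 0 by funext x; simp] using Lim.const 0
  | MC p a _ _ ih => rw [map_add, map_add, aeval_C, aeval_C]; exact ih.add (Lim.const a)
  | MX p _ ih => rw [map_mul, map_mul, aeval_X, aeval_X]; exact ih.mul h

theorem lim_EE {c : ℕ} (hc : 0 < c) : Lim (EE c) (exp (1 / c)) :=
  ⟨fun r => (nn_EE hc r).1, fun r h =>
    ((nn_EE hc (-r)).2 (by push_cast; linarith)).eq (by funext x; simp; ring)⟩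

theorem NN.pow_sub_one (h : NN (y - 1)) (n : ℕ) : NN (y ^ n - 1) := by
  induction n with
  | zero => simpa using nn_zero
  | succ n ih => exact (((ih.mul h).add ih).add h).eq (by ring)

/-- Polynomials in `x` with coefficients that are polynomials in `y`. -/
noncomputable def Psi (y : Fn) : ℚ[X][X] →+* Fn := eval₂RingHom (aeval y : ℚ[X] →ₐ[ℚ] Fn) xx

theorem psi_lo (h : Lim y θ) (n : ℕ) (F : ℚ[X][X]) (hF : F.natDegree ≤ n) (r : ℚ)
    (hr : r < aeval θ (F.coeff n)) : NN (Psi y F - cq r * xx ^ n) := by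
  induction n generalizing F r with
  | zero =>
    rw [eq_C_of_natDegree_le_zero hF]
    simpa [Psi] using (h.poly _).1 r hr
  | succ n ih =>
    obtain ⟨s, h1, h2⟩ := exists_rat_btwn hr
    have h3 : 0 < s - r := sub_pos.2 (by exact_mod_cast h1)
    obtain ⟨K, hK⟩ := exists_rat_lt (aeval θ (F.coeff 0))
    obtain ⟨m, hm⟩ := exists_nat_ge (-K / (s - r))
    have k1 := ih F.divX (by rw [natDegree_divX_eq_natDegree_tsub_one]; omega) s
      (by rwa [coeff_divX])
    have k2 := nn_cq (q := (s - r) * m + K) (by rw [div_le_iff₀ h3] at hm; linarith)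
    have k3 := NN.pow_sub_one (y := xx) (by simpa using nn_x_sub 1) n
    refine (((k1.mul Sk.xx.nn).add ((h.poly _).1 K hK)).add (k2.add ((nn_cq h3.le).mul
      ((nn_x_sub m).add (k3.mul Sk.xx.nn))))).eq ?_
    conv_rhs => rw [← F.divX_mul_X_add]
    funext x
    simp [Psi]
    ring

theorem psi_tot (h : Lim y θ) (ht : ∀ P : ℚ[X], aeval θ P = 0 → P = 0) :
    ∀ f ∈ (Psi y).range, Tot f := by
  rintro _ ⟨F, rfl⟩
  rcases lt_trichotomy (aeval θ (F.coeff F.natDegree)) 0 with k | k | k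
  · exact Or.inr ((psi_lo h _ (-F) (natDegree_neg F).le 0 (by simpa using k)).eq
      (by funext x; simp))
  · rw [leadingCoeff_eq_zero.1 (ht _ k), map_zero]
    exact Or.inl nn_zero
  · exact Or.inl ((psi_lo h _ F le_rfl 0 (by simpa using k)).eq (by funext x; simp))

theorem xx_psi : xx ∈ (Psi y).range := ⟨X, by simp [Psi]⟩
theorem self_psi : y ∈ (Psi y).range := ⟨C X, by simp [Psi]⟩
theorem cq_psi (q : ℚ) : cq q ∈ (Psi y).range := ⟨C (C q), by simp [Psi]; rfl⟩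

end

theorem pv_mem {S : Subring Fn} (h1 : xx ∈ S) (h2 : ∀ q, cq q ∈ S) (Q : ℚ[X]) : pv Q ∈ S := by
  induction Q using Polynomial.recOnHorner with
  | M0 => convert S.zero_mem; funext x; simp [pv]
  | MC p a _ _ ih => convert S.add_mem ih (h2 a); funext x; simp [pv]
  | MX p _ ih => convert S.mul_mem ih h1; funext x; simp [pv]

theorem pv_map (p : ℕ[X]) : pv (p.map (algebraMap ℕ ℚ)) = pv p := by
  funext x; simp only [pv, aeval_map_algebraMap]

theorem tot_pv (Q : ℚ[X]) : Tot (pv Q) :=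
  psi_tot (lim_EE one_pos) (fun _ => hermite one_pos) _ (pv_mem xx_psi cq_psi Q)

/-- Fractions with provably positive denominators. -/
def Loc (S : Subring Fn) : Subring Fn where
  carrier := {h | ∃ q ∈ S, Fp q ∧ ∃ F ∈ S, h * q =ᶠ[Nf] F}
  zero_mem' := ⟨1, S.one_mem, Fp.one, 0, S.zero_mem, by simp⟩
  one_mem' := ⟨1, S.one_mem, Fp.one, 1, S.one_mem, by simp⟩
  neg_mem' := fun ⟨q, a, b, F, c, d⟩ => ⟨q, a, b, -F, S.neg_mem c, by simpa using d.neg⟩
  add_mem' := fun ⟨q, a, b, F, c, d⟩ ⟨q', a', b', F', c', d'⟩ =>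
    ⟨q * q', S.mul_mem a a', b.mul b', F * q' + F' * q, S.add_mem (S.mul_mem c a') (S.mul_mem c' a),
      (d.and d').mono fun x e => by simp [← e.1, ← e.2]; ring⟩
  mul_mem' := fun ⟨q, a, b, F, c, d⟩ ⟨q', a', b', F', c', d'⟩ =>
    ⟨q * q', S.mul_mem a a', b.mul b', F * F', S.mul_mem c c',
      (d.and d').mono fun x e => by simp [← e.1, ← e.2]; ring⟩

section
variable {S : Subring Fn} {f g : Fn}

theorem Loc.tot (h : ∀ f ∈ S, Tot f) : ∀ f ∈ Loc S, Tot f := by
  rintro f ⟨q, -, b, F, c, d⟩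
  exact (((h F c).congr d.symm).mul b.inv.nn).congr (b.ne.mono fun x e => by simp [e])

theorem Loc.of (h : f ∈ S) : f ∈ Loc S := ⟨1, S.one_mem, Fp.one, f, h, by simp⟩

theorem Loc.congr (h : f ∈ Loc S) (e : f =ᶠ[Nf] g) : g ∈ Loc S := by
  obtain ⟨q, a, b, F, c, d⟩ := h
  exact ⟨q, a, b, F, c, (e.symm.mul .rfl).trans d⟩

theorem Loc.div (h : f ∈ Loc S) (h' : g ∈ Loc S) (hg : Fp g) : f / g ∈ Loc S := by
  obtain ⟨q, a, b, F, c, d⟩ := h'
  rw [div_eq_mul_inv]
  exact (Loc S).mul_mem h ⟨F, c, (hg.mul b).congr d, q, a,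
    (d.and hg.ne).mono fun x e => by simp [← e.1, e.2]⟩

end

/-! Approximation. -/

/-- `y` is provably approximated by elements of `S`. -/
def Ap (S : AddSubgroup Fn) (L y : Fn) : Prop := ∀ C : ℝ, ∃ m ∈ S, ∃ e ∈ S,
  NN (e - (y - m)) ∧ NN (e + (y - m)) ∧ ∀ᶠ x in Nf, e x ≤ exp (-(C * L x))

/-- Smaller than all scales. -/
def Sm (L y : Fn) : Prop := ∀ C : ℝ, ∀ᶠ x in Nf, |y x| ≤ exp (-(C * L x))

section
variable {S : AddSubgroup Fn} {L y y' a w : Fn}

theorem exp_third (s : Sc L) (C : ℝ) :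
    ∀ᶠ x in Nf, 3 * exp (-((C + 1) * L x)) ≤ exp (-(C * L x)) :=
  Nf_le ((s.top.eventually_ge_atTop 2).mono fun x hx => by
    rw [show -(C * L x) = L x + -((C + 1) * L x) by ring, exp_add]
    exact mul_le_mul_of_nonneg_right (by linarith [add_one_le_exp (L x)]) (exp_pos _).le)

theorem Ap.congr (h : Ap S L y) (e : y =ᶠ[Nf] y') : Ap S L y' := fun C => by
  obtain ⟨m, a1, f, a2, a3, a4, a5⟩ := h C
  exact ⟨m, a1, f, a2, a3.congr (.sub .rfl (e.sub .rfl)), a4.congr (.add .rfl (e.sub .rfl)), a5⟩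

theorem Ap.of_mem (h : y ∈ S) : Ap S L y := fun _ =>
  ⟨y, h, 0, zero_mem _, by simpa using nn_zero, by simpa using nn_zero,
    Eventually.of_forall fun _ => (exp_pos _).le⟩

theorem Ap.add (s : Sc L) (h : Ap S L y) (h' : Ap S L y') : Ap S L (y + y') := fun C => by
  obtain ⟨m, a1, e, a2, a3, a4, a5⟩ := h (C + 1)
  obtain ⟨m', b1, e', b2, b3, b4, b5⟩ := h' (C + 1)
  refine ⟨_, add_mem a1 b1, _, add_mem a2 b2, (a3.add b3).eq (by ring), (a4.add b4).eq (by ring), ?_⟩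
  filter_upwards [a5, b5, exp_third s C] with x k1 k2 k3
  have := exp_pos (-((C + 1) * L x))
  rw [Pi.add_apply]
  linarith

theorem Sm.add (s : Sc L) (h : Sm L y) (h' : Sm L y') : Sm L (y + y') := fun C => by
  filter_upwards [h (C + 1), h' (C + 1), exp_third s C] with x k1 k2 k3
  have := exp_pos (-((C + 1) * L x))
  have := abs_add_le (y x) (y' x)
  rw [Pi.add_apply]
  linarith

theorem Ap.tot (s : Sc L) (hS : ∀ h ∈ S, Tot h) (h : Ap S L y) {C : ℝ}
    (hy : ∀ᶠ x in Nf, exp (-(C * L x)) ≤ |y x|) : Tot y := by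
  obtain ⟨m, a1, e, a2, a3, a4, a5⟩ := h (C + 1)
  rcases hS m a1 with k | k
  · refine Or.inl ((((hS _ (sub_mem a1 a2)).nn ?_).add a4).eq (by ring))
    filter_upwards [hy, a3.sound, a4.sound, a5, k.sound, exp_third s C] with x k1 k2 k3 k4 k5 k6
    have := exp_pos (-((C + 1) * L x))
    simp only [Pi.add_apply, Pi.sub_apply] at *
    rcases le_abs.1 k1 with k | k <;> linarith
  · refine Or.inr ((((hS _ (sub_mem (neg_mem a1) a2)).nn ?_).add a3).eq (by ring))
    filter_upwards [hy, a3.sound, a4.sound, a5, k.sound, exp_third s C] with x k1 k2 k3 k4 k5 k6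
    have := exp_pos (-((C + 1) * L x))
    simp only [Pi.add_apply, Pi.sub_apply, Pi.neg_apply] at *
    rcases le_abs.1 k1 with k | k <;> linarith

theorem small_mul {u v t C D : ℝ} (h1 : |u| ≤ exp (D * t)) (h2 : v ≤ exp (-((C + D) * t)))
    (h3 : 0 ≤ v) : |u| * v ≤ exp (-(C * t)) :=
  (mul_le_mul h1 h2 h3 (exp_pos _).le).trans_eq (by rw [← exp_add]; congr 1; ring)

theorem Ap.mul (s : Sc L) (ha : Tot a) (hm : Md L a) (h : ∀ C : ℝ, ∃ m e, a * m ∈ S ∧ a * e ∈ S ∧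
    NN (e - (y - m)) ∧ NN (e + (y - m)) ∧ ∀ᶠ x in Nf, e x ≤ exp (-(C * L x))) :
    Ap S L (a * y) := fun C => by
  obtain ⟨D, -, hD⟩ := hm.le s
  obtain ⟨m, e, a1, a2, a3, a4, a5⟩ := h (C + D)
  have k : ∀ᶠ x in Nf, |a x| * e x ≤ exp (-(C * L x)) ∧ 0 ≤ e x := by
    filter_upwards [Nf_le hD, a5, (a3.add a4).sound] with x k1 k2 k3
    have : 0 ≤ e x := by simp at k3; linarith
    exact ⟨small_mul k1 k2 this, this⟩
  rcases ha with ha | ha
  · exact ⟨_, a1, _, a2, (ha.mul a3).eq (by ring), (ha.mul a4).eq (by ring),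
      k.mono fun x e => (mul_le_mul_of_nonneg_right (le_abs_self _) e.2).trans e.1⟩
  · exact ⟨_, a1, _, neg_mem a2, (ha.mul a4).eq (by ring), (ha.mul a3).eq (by ring),
      k.mono fun x e => le_trans (by
        simpa using mul_le_mul_of_nonneg_right (neg_le_abs (a x)) e.2) e.1⟩

theorem Ap.bin (s : Sc L) (ha : Tot a) (hm : Md L a) (hw : Fp w) (h1 : Tot (1 + 2 * xx * (w - 1)))
    (h2 : Tot (1 - 2 * xx * (w - 1))) {η : ℝ} (hη : 0 < η)
    (hs : ∀ᶠ x in Nf, |x * (w x - 1)| ≤ exp (-(η * L x)))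
    (hS : ∀ (Q : ℚ[X]) (k : ℕ), a * (pv Q * (w - 1) ^ k) ∈ S) : Ap S L (a * rp w xx) := by
  have h3 : ∀ᶠ x in Nf, |x * (w x - 1)| ≤ 1 / 2 := by
    filter_upwards [hs, Nf_le ((s.top.const_mul_atTop hη).eventually_ge_atTop 1)] with x k1 k2
    refine k1.trans ?_
    rw [exp_neg, one_div]
    exact inv_anti₀ two_pos (by linarith [add_one_le_exp (η * L x)])
  refine Ap.mul s ha hm fun C => ?_
  obtain ⟨u, hu⟩ := exists_nat_ge ((C + 1) / (2 * η))
  obtain ⟨k1, k2⟩ := NN.bin hw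
    (h1.nn (h3.mono fun x e => by have := abs_le.1 e; simp; linarith))
    (h2.nn (h3.mono fun x e => by have := abs_le.1 e; simp; linarith)) u
  refine ⟨_, _, ?_, ?_, k2, k1, ?_⟩
  · rw [Finset.mul_sum]
    exact sum_mem fun k _ => hS _ _
  · convert hS (2 * X ^ (2 * u)) (2 * u) using 2
    funext x; simp [pv, mul_pow, mul_assoc, map_ofNat]
  · filter_upwards [hs, exp_third s C, Nf_le (s.top.eventually_ge_atTop 0)] with x e1 e2 e3
    have e4 := pow_le_pow_left₀ (abs_nonneg _) e1 (2 * u)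
    rw [(even_two_mul u).pow_abs, ← exp_nat_mul] at e4
    rw [div_le_iff₀ (by positivity)] at hu
    have e5 : exp (((2 * u : ℕ) : ℝ) * -(η * L x)) ≤ exp (-((C + 1) * L x)) :=
      exp_le_exp.2 (by push_cast; nlinarith)
    have := exp_pos (-((C + 1) * L x))
    simp only [Pi.mul_apply, Pi.pow_apply, Pi.sub_apply, Pi.one_apply, Pi.ofNat_apply]
    linarith

theorem Ap.low (s : Sc L) (ha : Tot a) (hm : Md L a) (hy : NN y)
    (h : ∀ C : ℝ, ∃ e, a * e ∈ S ∧ NN (e - y) ∧ ∀ᶠ x in Nf, e x ≤ exp (-(C * L x))) :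
    Ap S L (a * y) ∧ Sm L (a * y) := by
  refine ⟨Ap.mul s ha hm fun C => ?_, fun C => ?_⟩
  · obtain ⟨e, a1, a2, a3⟩ := h C
    exact ⟨0, e, by simp, a1, by simpa using a2, ((a2.add hy).add hy).eq (by ring), a3⟩
  · obtain ⟨D, -, hD⟩ := hm.le s
    obtain ⟨e, -, a2, a3⟩ := h (C + D)
    filter_upwards [Nf_le hD, a2.sound, a3, hy.sound] with x k1 k2 k3 k4
    rw [Pi.mul_apply, abs_mul, abs_of_nonneg k4]
    exact small_mul k1 ((sub_nonneg.1 k2).trans k3) k4

end

theorem fadd_div (f g Y : Fn) : (f + g) / Y = f / Y + g / Y := funext fun _ => add_div _ _ _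
theorem fzero_div (Y : Fn) : 0 / Y = 0 := funext fun _ => zero_div _

/-- Induction on the groups of terms of the same size. -/
theorem grp {ι : Type} (val : ι → Fn) (good : ι → Prop)
    (H : ∀ l : List ι, l ≠ [] → (∀ i ∈ l, good i) → Tot (l.map val).sum ∨
      ∃ (top : ι → Prop) (Y : Fn) (S : AddSubgroup Fn) (L : Fn), Sc L ∧ Fp Y ∧ (∀ h ∈ S, Tot h) ∧
        (∃ i ∈ l, top i) ∧ (∀ i ∈ l, top i → Ap S L (val i / Y) ∧ Tm L (val i / Y)) ∧
        ∀ i ∈ l, ¬ top i → Ap S L (val i / Y) ∧ Sm L (val i / Y))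
    (l : List ι) (hl : ∀ i ∈ l, good i) : Tot (l.map val).sum := by
  classical
  induction hn : l.length using Nat.strong_induction_on generalizing l with
  | _ n ih =>
    rcases eq_or_ne l [] with rfl | h0
    · exact Or.inl nn_zero
    rcases H l h0 hl with h | ⟨top, Y, S, L, s, hY, hS, ⟨i, i1, i2⟩, h1, h2⟩
    · exact h
    have e : ∀ l : List ι, (l.map fun i => val i / Y).sum = (l.map val).sum / Y := fun l => by
      induction l with
      | nil => simp [fzero_div]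
      | cons i l ih => simp [ih, fadd_div]
    have e' := List.sum_map_filter_add_sum_map_filter_not top val l
    have k1 : Tm L (((l.filter top).map val).sum / Y) := e _ ▸ Tm.sum fun j m =>
      (h1 j (List.mem_filter.1 m).1 (by simpa using (List.mem_filter.1 m).2)).2
    have k2 : ∀ r : List ι, (∀ j ∈ r, Sm L (val j / Y)) → Sm L ((r.map val).sum / Y) := fun r hr => by
      induction r with
      | nil => exact fun C => Eventually.of_forall fun x => by simp [exp_nonneg]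
      | cons j r ih =>
        rw [List.map_cons, List.sum_cons, fadd_div]
        exact (hr j List.mem_cons_self).add s (ih fun _ m => hr _ (List.mem_cons_of_mem _ m))
    have k3 : ∀ r : List ι, (∀ j ∈ r, Ap S L (val j / Y)) → Ap S L ((r.map val).sum / Y) :=
      fun r hr => by
        induction r with
        | nil => exact Ap.of_mem (by simp [fzero_div])
        | cons j r ih =>
          rw [List.map_cons, List.sum_cons, fadd_div]
          exact (hr j List.mem_cons_self).add s (ih fun _ m => hr _ (List.mem_cons_of_mem _ m))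
    rcases (k1.md s).2 with k | k
    · refine (ih _ ?_ (l.filter fun i => ¬ top i) (fun j m => hl j (List.mem_filter.1 m).1)
        rfl).congr ?_
      · exact hn ▸ List.length_filter_lt_length_iff_exists.2 ⟨i, i1, by simpa using i2⟩
      · filter_upwards [Nf_le k, hY.ne] with x a1 a2
        rw [← e', Pi.add_apply, (div_eq_zero_iff.1 a1).resolve_right a2, zero_add]
    · obtain ⟨C, -, hC⟩ := k.le s
      refine ((k3 l fun j m => (em (top j)).elim (fun t => (h1 j m t).1) fun t => (h2 j m t).1).tot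
        s hS (C := C + 1) ?_).cancel hY
      filter_upwards [Nf_le hC, k2 (l.filter fun i => ¬ top i) (fun j m => (h2 j
        (List.mem_filter.1 m).1 (by simpa using (List.mem_filter.1 m).2)).2) (C + 1),
        exp_third s C] with x a1 a2 a3
      have := exp_pos (-((C + 1) * L x))
      rw [← e', fadd_div, Pi.add_apply]
      linarith [abs_sub_abs_le_abs_add ((((l.filter top).map val).sum / Y) x)
        ((((l.filter fun i => ¬ top i).map val).sum / Y) x)]

end Pool.Agent.MP_b50963_lc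

end

-- part MP_b50963_lc.Lev2
section

/-!
Sums of terms `Q x * p x ^ x` with polynomials `Q`, `p`.
-/

set_option autoImplicit false

namespace Pool.Agent.MP_b50963_lc

open Set Filter Topology Real Polynomial Asymptotics

/-- Finite sums of generators, up to eventual equality. -/
def Gen {ι : Type} (val : ι → Fn) (good : ι → Prop) : AddSubmonoid Fn where
  carrier := {h | ∃ l : List ι, (∀ i ∈ l, good i) ∧ h =ᶠ[Nf] (l.map val).sum}
  zero_mem' := ⟨[], by simp, .rfl⟩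
  add_mem' := fun ⟨l, a, b⟩ ⟨l', a', b'⟩ =>
    ⟨l ++ l', fun i m => (List.mem_append.1 m).elim (a i) (a' i), by simpa using b.add b'⟩

section
variable {ι : Type} {val : ι → Fn} {good : ι → Prop} {f g : Fn}

theorem Gen.congr (h : f ∈ Gen val good) (e : f =ᶠ[Nf] g) : g ∈ Gen val good := by
  obtain ⟨l, a, b⟩ := h
  exact ⟨l, a, e.symm.trans b⟩

theorem Gen.of {i : ι} (h : good i) (e : val i =ᶠ[Nf] f) : f ∈ Gen val good :=
  ⟨[i], by simpa using h, by simpa using e.symm⟩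

theorem Gen.ind {T : Fn → Prop} (hc : ∀ f g, T f → f =ᶠ[Nf] g → T g) (h0 : T 0)
    (ha : ∀ f g, T f → T g → T (f + g)) (hv : ∀ i, good i → T (val i)) (h : f ∈ Gen val good) :
    T f := by
  obtain ⟨l, a, b⟩ := h
  refine hc _ _ ?_ b.symm
  clear b
  induction l with
  | nil => exact h0
  | cons i l ih =>
    exact ha _ _ (hv i (a i List.mem_cons_self)) (ih fun j m => a j (List.mem_cons_of_mem _ m))

theorem Gen.smul {κ : Type} {val' : κ → Fn} {good' : κ → Prop}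
    (hv : ∀ i, good i → g * val i ∈ Gen val' good') (h : f ∈ Gen val good) :
    g * f ∈ Gen val' good' :=
  Gen.ind (T := fun f => g * f ∈ Gen val' good') (fun _ _ a e => Gen.congr a (.mul .rfl e))
    (by simp) (fun _ _ a b => by rw [mul_add]; exact add_mem a b) hv h

theorem Gen.neg (hv : ∀ i, good i → -val i ∈ Gen val good) (h : f ∈ Gen val good) :
    -f ∈ Gen val good := by
  simpa using Gen.smul (g := -1) (by simpa using hv) h

theorem Gen.mul (hv : ∀ i j, good i → good j → val i * val j ∈ Gen val good)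
    (h : f ∈ Gen val good) (h' : g ∈ Gen val good) : f * g ∈ Gen val good :=
  Gen.smul (fun j b => by rw [mul_comm]; exact Gen.smul (fun i a => hv j i b a) h) h'

end

section
variable {R : Type} [CommSemiring R] [Algebra R ℝ] (p q : R[X])

@[simp] theorem pv_zero : pv (0 : R[X]) = 0 := by funext x; simp [pv]
@[simp] theorem pv_one : pv (1 : R[X]) = 1 := by funext x; simp [pv]
@[simp] theorem pv_X : pv (X : R[X]) = xx := by funext x; simp [pv]
@[simp] theorem pv_add : pv (p + q) = pv p + pv q := by funext x; simp [pv]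
@[simp] theorem pv_mul : pv (p * q) = pv p * pv q := by funext x; simp [pv]
@[simp] theorem pv_pow (n : ℕ) : pv (p ^ n) = pv p ^ n := by funext x; simp [pv]
@[simp] theorem pv_nat (n : ℕ) : pv (n : R[X]) = n := by funext x; simp [pv]
@[simp] theorem pv_neg (Q : ℚ[X]) : pv (-Q) = -pv Q := by funext x; simp [pv]
@[simp] theorem pv_C (n : ℕ) : pv (C n) = n := by funext x; simp [pv]

theorem md_pv {L : Fn} (s : Sc L) : Md L (pv p) := ((Tm.poly s p).md s).1

end

theorem sk_pv (p : ℕ[X]) : Sk (pv p) := by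
  induction p using Polynomial.recOnHorner with
  | M0 => simpa using Sk.zero
  | MC p a _ _ ih => simpa using ih.add (Sk.nat a)
  | MX p _ ih => simpa using ih.mul Sk.xx

/-- The leading term. -/
noncomputable def ld (p : ℕ[X]) : Fn := p.leadingCoeff * xx ^ p.natDegree

theorem ld_le (p : ℕ[X]) {x : ℝ} (hx : 0 ≤ x) : ld p x ≤ pv p x := by
  rw [pv, aeval_eq_sum_range, Finset.sum_range_succ]
  simp only [nsmul_eq_mul]
  exact le_add_of_nonneg_left (Finset.sum_nonneg fun _ _ => by positivity)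

theorem lc_pos {p : ℕ[X]} (h : p ≠ 0) : 0 < p.leadingCoeff :=
  Nat.pos_of_ne_zero (leadingCoeff_ne_zero.2 h)

theorem ld_pos {p : ℕ[X]} (h : p ≠ 0) {x : ℝ} (hx : 0 < x) : 0 < ld p x :=
  mul_pos (by simpa using lc_pos h) (pow_pos hx _)

theorem pv_pos {p : ℕ[X]} (h : p ≠ 0) {x : ℝ} (hx : 0 < x) : 0 < pv p x :=
  (ld_pos h hx).trans_le (ld_le p hx.le)

theorem pv_nonneg (p : ℕ[X]) {x : ℝ} (hx : 0 < x) : 0 ≤ pv p x := by
  rcases eq_or_ne p 0 with rfl | h
  · simp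
  · exact (pv_pos h hx).le

theorem fp_ld {p : ℕ[X]} (h : p ≠ 0) : Fp (ld p) := (Fp.nat (lc_pos h)).mul (Fp.xx.pow _)

theorem one_le_pv {p : ℕ[X]} (h : p ≠ 0) {x : ℝ} (hx : 1 ≤ x) : 1 ≤ pv p x :=
  le_trans (one_le_mul_of_one_le_of_one_le (Nat.one_le_cast.2 (lc_pos h)) (one_le_pow₀ hx))
    (ld_le p (by linarith))

theorem nn_pv_one {p : ℕ[X]} (h : p ≠ 0) : NN (pv p - 1) := by
  have := tot_pv (p.map (algebraMap ℕ ℚ) + -1)
  rw [pv_add, pv_map, pv_neg, pv_one, ← sub_eq_add_neg] at this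
  exact this.nn (Nf_le ((eventually_ge_atTop 1).mono fun x hx => sub_nonneg.2 (one_le_pv h hx)))

theorem fp_pv {p : ℕ[X]} (h : p ≠ 0) : Fp (pv p) := Fp.of_sk (sk_pv p) (nn_pv_one h)

theorem ld_expand {p : ℕ[X]} (h : p ≠ 0) : (fun x => x ^ 2 * (pv p x / ld p x - 1 -
    p.nextCoeff * (1 / p.leadingCoeff / x))) =O[atTop] fun _ => (1 : ℝ) := by
  set P := p.map (algebraMap ℕ ℝ)
  have k := isBigO_atTop_of_degree_le (X ^ 2 * (P - C (p.leadingCoeff : ℝ) * X ^ p.natDegree) -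
    C (p.nextCoeff : ℝ) * X ^ (p.natDegree + 1)) (X ^ p.natDegree) (by
      rw [degree_X_pow, degree_le_iff_coeff_zero]
      intro m hm
      have hm : p.natDegree < m := by exact_mod_cast hm
      simp only [coeff_sub, coeff_X_pow_mul', coeff_C_mul, coeff_X_pow, P, coeff_map, nextCoeff]
      by_cases a1 : m = p.natDegree + 1
      · rcases Nat.eq_zero_or_pos p.natDegree with e | e
        · simp [a1, e]
        · rw [if_pos (by omega), if_neg (by omega), if_neg (by omega), if_pos a1,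
            show m - 2 = p.natDegree - 1 by omega]
          simp
      rw [if_pos (by omega), if_neg a1]
      by_cases a2 : m - 2 = p.natDegree
      · simp [a2]
      · simp [a2, coeff_eq_zero_of_natDegree_lt (show p.natDegree < m - 2 by omega)])
  have c0 : (p.leadingCoeff : ℝ) ≠ 0 := by simpa using h
  refine ((k.const_mul_left (p.leadingCoeff : ℝ)⁻¹).mul (isBigO_refl
    (fun x : ℝ => (x ^ p.natDegree)⁻¹) atTop)).congr' ?_ ?_ <;>
  · filter_upwards [eventually_gt_atTop 0] with x hx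
    simp [P, pv, ld, eval_map_algebraMap]
    field_simp
    try ring

theorem pow_expand (s : ℝ) (n : ℕ) :
    (fun x => x ^ 2 * ((1 + s / x) ^ n - 1 - n * (s / x))) =O[atTop] fun _ => (1 : ℝ) := by
  induction n with
  | zero => simpa using isBigO_const_one ℝ (0 : ℝ) atTop
  | succ n ih =>
    have h : (fun x : ℝ => 1 + s / x) =O[atTop] fun _ => (1 : ℝ) :=
      (tendsto_const_nhds.add (tendsto_const_nhds.div_atTop tendsto_id)).isBigO_one ℝ
    refine ((ih.mul h).congr_right (fun _ => one_mul 1) |>.add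
      (isBigO_const_one ℝ (n * s ^ 2) atTop)).congr' ?_ .rfl
    filter_upwards [eventually_gt_atTop 0] with x hx
    rw [pow_succ _ n]
    push_cast
    field_simp
    ring

theorem isBigO_div_x {f : Fn} (h : (fun x => x * f x) =O[atTop] fun _ => (1 : ℝ)) :
    ∀ᶠ x in atTop, |f x| ≤ exp (-(1 / 2 * log x)) := by
  obtain ⟨K, hK⟩ := h.bound
  filter_upwards [hK, eventually_gt_atTop 0, (tendsto_rpow_atTop one_half_pos).eventually_ge_atTop K]
    with x h1 h2 h3
  rw [norm_eq_abs, norm_one, mul_one, abs_mul, abs_of_pos h2] at h1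
  rw [mul_comm, ← mul_neg, ← rpow_def_of_pos h2]
  refine le_of_mul_le_mul_left (h1.trans (h3.trans_eq ?_)) h2
  rw [mul_comm, ← rpow_add_one h2.ne']
  norm_num

theorem ld_log {p : ℕ[X]} (h : p ≠ 0) :
    (fun x => x * log (pv p x / ld p x)) =O[atTop] fun _ => (1 : ℝ) := by
  have k : (fun x => x * (pv p x / ld p x - 1)) =O[atTop] fun _ => (1 : ℝ) := by
    refine ((((ld_expand h).mul (tendsto_inv_atTop_zero.isBigO_one ℝ)).congr_right
      fun _ => one_mul 1).add (isBigO_const_one ℝ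
        ((p.nextCoeff : ℝ) * (1 / p.leadingCoeff)) atTop)).congr' ?_ .rfl
    filter_upwards [eventually_gt_atTop 0] with x hx
    field_simp
    ring
  refine (IsBigO.of_bound' ?_).trans k
  filter_upwards [eventually_gt_atTop 0] with x hx
  have h1 := (one_le_div (ld_pos h hx)).2 (ld_le p hx.le)
  rw [norm_eq_abs, norm_eq_abs, abs_of_nonneg (mul_nonneg hx.le (log_nonneg h1))]
  exact (mul_le_mul_of_nonneg_left (log_le_sub_one_of_pos (by linarith)) hx.le).trans
    (le_abs_self _)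

theorem one_O {L : Fn} (s : Sc L) : (fun _ => (1 : ℝ)) =O[atTop] L :=
  IsBigO.of_bound' ((s.top.eventually_ge_atTop 1).mono fun x hx => by
    simpa using hx.trans (le_abs_self _))

theorem ld_equiv (p : ℕ[X]) : pv p ~[atTop] ld p := by
  have := isEquivalent_atTop_lead (p.map (algebraMap ℕ ℝ))
  rw [leadingCoeff_map_of_injective Nat.cast_injective,
    natDegree_map_eq_of_injective Nat.cast_injective] at this
  exact this.congr_left (Eventually.of_forall fun x => eval_map_algebraMap p x)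

theorem exp_le_inv_pow {C x : ℝ} {N : ℕ} (h : C ≤ N) (hx : 1 ≤ x) :
    (x ^ N)⁻¹ ≤ exp (-(C * log x)) := by
  rw [exp_neg]
  refine inv_anti₀ (exp_pos _) ((exp_le_exp.2 (mul_le_mul_of_nonneg_right h
    (log_nonneg hx))).trans_eq ?_)
  rw [exp_nat_mul, exp_log (by linarith)]

/-- The ring of level one. -/
noncomputable def D1 (c : ℕ) : Subring Fn := Loc (Psi (EE c)).range

theorem tot_D1 {c : ℕ} (hc : 0 < c) : ∀ f ∈ D1 c, Tot f :=
  Loc.tot (psi_tot (lim_EE hc) fun _ => hermite hc)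

theorem pv_D1 (c : ℕ) (Q : ℚ[X]) : pv Q ∈ D1 c := Loc.of (pv_mem xx_psi cq_psi Q)
theorem pn_D1 (c : ℕ) (p : ℕ[X]) : pv p ∈ D1 c := pv_map p ▸ pv_D1 c _
theorem xx_D1 (c : ℕ) : xx ∈ D1 c := Loc.of xx_psi

theorem low_D1 {c : ℕ} (hc : 0 < c) (Q : ℚ[X]) {y : Fn} (h1 : NN y)
    (h2 : ∀ N : ℕ, NN ((xx ^ N)⁻¹ - y)) :
    Ap (D1 c).toAddSubgroup log (pv Q * y) ∧ Sm log (pv Q * y) := by
  refine Ap.low sc_log (tot_pv Q) (md_pv Q sc_log) h1 fun C => ?_
  obtain ⟨N, hN⟩ := exists_nat_ge C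
  refine ⟨_, ?_, h2 N, Nf_le ((eventually_ge_atTop 1).mono fun x hx => exp_le_inv_pow hN hx)⟩
  rw [← div_eq_mul_inv]
  exact Loc.div (pv_D1 c Q) (pow_mem (xx_D1 c) N) (Fp.xx.pow N)

theorem top2 {p : ℕ[X]} (h : p ≠ 0) (Q : ℚ[X]) :
    Ap (D1 p.leadingCoeff).toAddSubgroup log (pv Q * rp (pv p) xx / rp (ld p) xx) ∧
      Tm log (pv Q * rp (pv p) xx / rp (ld p) xx) := by
  have hc := lc_pos h
  have hc' : (0 : ℝ) < p.leadingCoeff := by exact_mod_cast hc
  constructor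
  · set c := p.leadingCoeff
    set u : Fn := (c * xx + 1) / (c * xx)
    have u1 : c * xx ∈ D1 c := mul_mem (natCast_mem _ c) (xx_D1 c)
    have u2 := (Fp.nat hc).mul Fp.xx
    have u3 : Fp u := (Fp.of_sk (((Sk.nat c).mul Sk.xx).add Sk.one) (by simpa using u2.nn)).div u2
    have u4 : ∀ x > 0, u x = 1 + 1 / c / x := fun x hx => by simp [u]; field_simp
    have hB := (fp_ld h).mul (u3.pow p.nextCoeff)
    have hw : pv p / (ld p * u ^ p.nextCoeff) - 1 ∈ D1 c := sub_mem (Loc.div (pn_D1 c p)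
      (mul_mem (mul_mem (natCast_mem _ c) (pow_mem (xx_D1 c) _))
        (pow_mem (Loc.div (add_mem u1 (one_mem _)) u1 u2) _)) hB) (one_mem _)
    have ha : pv Q * EE c ^ p.nextCoeff ∈ D1 c := mul_mem (pv_D1 c Q) (pow_mem (Loc.of self_psi) _)
    have hx : 2 * xx * (pv p / (ld p * u ^ p.nextCoeff) - 1) ∈ D1 c :=
      mul_mem (mul_mem (ofNat_mem _ 2) (xx_D1 c)) hw
    refine (Ap.bin sc_log (tot_D1 hc _ ha) ((md_pv Q sc_log).mul (((Md.const 1).of_O
      ((tendsto_EE hc).isBigO_one ℝ)).pow _)) ((fp_pv h).div hB)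
      (tot_D1 hc _ (add_mem (one_mem _) hx)) (tot_D1 hc _ (sub_mem (one_mem _) hx)) one_half_pos
      (Nf_le (isBigO_div_x ?_)) fun Q k =>
        (D1 c).mul_mem ha (mul_mem (pv_D1 c Q) (pow_mem hw k))).congr ?_
    · refine (IsBigO.of_bound' ?_).trans ((ld_expand h).sub (pow_expand (1 / c) p.nextCoeff))
      filter_upwards [eventually_gt_atTop 0] with x hx
      have k1 : 1 ≤ u x ^ p.nextCoeff := one_le_pow₀ (by rw [u4 x hx]; simp; positivity)
      have k2 := (ld_pos h hx).ne'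
      rw [← u4 x hx, ← mul_sub, ← mul_assoc, ← sq, norm_mul, norm_mul]
      refine mul_le_mul_of_nonneg_left ?_ (norm_nonneg _)
      have : (pv p / (ld p * u ^ p.nextCoeff)) x - 1 =
          (pv p x / ld p x - u x ^ p.nextCoeff) / u x ^ p.nextCoeff := by simp; field_simp
      rw [this, norm_div, sub_sub_sub_cancel_right, sub_sub_sub_cancel_right]
      exact div_le_self (norm_nonneg _) (k1.trans (le_abs_self _))
    · filter_upwards [pos_ev, u3.pos] with x hx hu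
      have k1 := (rpow_pos_of_pos (ld_pos h hx) x).ne'
      have k2 := (rpow_pos_of_pos hu x).ne'
      have : EE c x = u x ^ x := rfl
      simp only [Pi.mul_apply, Pi.div_apply, Pi.pow_apply, rp, this]
      rw [div_rpow (pv_pos h hx).le (mul_pos (ld_pos h hx) (pow_pos hu _)).le,
        mul_rpow (ld_pos h hx).le (pow_pos hu _).le, ← rpow_pow_comm hu.le]
      field_simp
  · refine ((Tm.poly sc_log Q).mul sc_log ((Tm.poly sc_log p).rpow sc_log (G := ld p)
      ((Tm.poly sc_log (C p.leadingCoeff * X ^ p.natDegree)).congr fun x _ => by simp [ld])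
      (fun _ => pv_pos h) (fun _ => ld_pos h) ((ld_log h).trans (one_O sc_log)))).congr
      fun x hx => ?_
    exact (mul_div_assoc _ _ _).trans
      (congrArg _ (div_rpow (pv_pos h hx).le (ld_pos h hx).le x).symm)

theorem nn_decay {n : ℕ} (hn : 0 < n) (N : ℕ) : NN ((xx ^ N)⁻¹ - rp (n / (n + 1)) xx) := by
  have h1 : Fp ((n : Fn) + 1) := by simpa using Fp.nat n.succ_pos
  refine NN.cancel ((nn_gr N n).congr ?_) ((Fp.xx.pow N).mul h1.rp)
  filter_upwards [pos_ev] with x hx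
  have : (0 : ℝ) < (n + 1) ^ x := by positivity
  simp [rp, div_rpow (Nat.cast_nonneg n) (show (0 : ℝ) ≤ n + 1 by positivity)]
  field_simp

theorem ld_lt {p q : ℕ[X]} (h : p ≠ 0) (k : q.natDegree < p.natDegree ∨
    q.natDegree = p.natDegree ∧ q.leadingCoeff < p.leadingCoeff) :
    ∀ᶠ x in atTop, pv q x / ld p x ≤ p.leadingCoeff / (p.leadingCoeff + 1) := by
  have hc : (0 : ℝ) < p.leadingCoeff := by exact_mod_cast lc_pos h
  have e := (ld_equiv q).div (IsEquivalent.refl (u := ld p))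
  rcases k with k | ⟨k, k'⟩
  · refine (e.symm.tendsto_nhds (c := 0) ?_).eventually_le_const (by positivity)
    obtain ⟨m, hm⟩ := Nat.exists_eq_add_of_lt k
    refine ((tendsto_const_nhds (x := (q.leadingCoeff : ℝ) / p.leadingCoeff)).div_atTop
      (tendsto_pow_atTop m.succ_ne_zero)).congr' ((eventually_gt_atTop 0).mono fun x hx => ?_)
    simp [ld, hm, pow_add]
    field_simp
  · refine (e.symm.tendsto_nhds (c := (q.leadingCoeff : ℝ) / p.leadingCoeff) ?_).eventually_le_const ?_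
    · refine tendsto_const_nhds.congr' ((eventually_gt_atTop 0).mono fun x hx => ?_)
      simp [ld, k]
      field_simp
    · have : (q.leadingCoeff : ℝ) + 1 ≤ p.leadingCoeff := by exact_mod_cast k'
      rw [div_lt_div_iff₀ hc (by positivity)]
      nlinarith

theorem rp_div' {f g : Fn} (hf : ∀ᶠ x in Nf, 0 ≤ f x) (hg : ∀ᶠ x in Nf, 0 ≤ g x) :
    rp (f / g) xx =ᶠ[Nf] rp f xx / rp g xx := (hf.and hg).mono fun _ e => div_rpow e.1 e.2 _

theorem rp_mul' {f g : Fn} (hf : ∀ᶠ x in Nf, 0 ≤ f x) (hg : ∀ᶠ x in Nf, 0 ≤ g x) :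
    rp (f * g) xx =ᶠ[Nf] rp f xx * rp g xx := (hf.and hg).mono fun _ e => mul_rpow e.1 e.2

theorem Sm.congr {L y y' : Fn} (h : Sm L y) (e : y =ᶠ[Nf] y') : Sm L y' := fun C =>
  ((h C).and e).mono fun _ a => a.2 ▸ a.1

theorem low2 {p q : ℕ[X]} (h : p ≠ 0) (h' : q ≠ 0) (k : q.natDegree < p.natDegree ∨
    q.natDegree = p.natDegree ∧ q.leadingCoeff < p.leadingCoeff) (Q : ℚ[X]) :
    Ap (D1 p.leadingCoeff).toAddSubgroup log (pv Q * rp (pv q) xx / rp (ld p) xx) ∧
      Sm log (pv Q * rp (pv q) xx / rp (ld p) xx) := by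
  have hc := lc_pos h
  have h1 := (fp_pv h').div (fp_ld h)
  have h2 : Fp ((p.leadingCoeff : Fn) + 1) := by simpa using Fp.nat p.leadingCoeff.succ_pos
  have h3 := NN.powl h1 ((Fp.nat hc).div h2) ((tot_D1 hc _ (sub_mem (Loc.div (natCast_mem _ _)
    (add_mem (natCast_mem _ _) (one_mem _)) h2) (Loc.div (pn_D1 _ q) (mul_mem (natCast_mem _ _)
      (pow_mem (xx_D1 _) _)) (fp_ld h)))).nn (Nf_le ((ld_lt h k).mono fun x e => sub_nonneg.2 e)))
  have h4 := low_D1 hc Q h1.rp.nn fun N => (nn_decay hc N).trans h3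
  have e : pv Q * rp (pv q / ld p) xx =ᶠ[Nf] pv Q * rp (pv q) xx / rp (ld p) xx := by
    rw [mul_div_assoc]
    exact .mul .rfl (rp_div' (fp_pv h').nn.sound (fp_ld h).nn.sound)
  exact ⟨h4.1.congr e, h4.2.congr e⟩

noncomputable def v2 (i : ℚ[X] × ℕ[X]) : Fn := pv i.1 * rp (pv i.2) xx

theorem exists_max {ι κ : Type} [LinearOrder κ] (key : ι → κ) {l : List ι} (h : l ≠ []) :
    ∃ i ∈ l, ∀ j ∈ l, key j ≤ key i :=
  Set.exists_max_image {i | i ∈ l} key l.finite_toSet (List.exists_mem_of_ne_nil l h)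

theorem tot_gen2 : ∀ f ∈ Gen v2 fun i => i.2 ≠ 0, Tot f := by
  rintro f ⟨l, h1, h2⟩
  refine (grp v2 _ (fun l h0 hl => Or.inr ?_) l h1).congr h2.symm
  obtain ⟨i, i1, i2⟩ := exists_max (fun i : ℚ[X] × ℕ[X] =>
    toLex (i.2.natDegree, i.2.leadingCoeff)) h0
  refine ⟨fun j => j.2.natDegree = i.2.natDegree ∧ j.2.leadingCoeff = i.2.leadingCoeff,
    rp (ld i.2) xx, (D1 i.2.leadingCoeff).toAddSubgroup, log, sc_log, (fp_ld (hl i i1)).rp,
    tot_D1 (lc_pos (hl i i1)), ⟨i, i1, rfl, rfl⟩, fun j m t => ?_, fun j m t => ?_⟩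
  · have := top2 (hl j m) j.1
    rwa [ld, t.1, t.2] at this
  · refine low2 (hl i i1) (hl j m) ?_ j.1
    have := Prod.Lex.toLex_le_toLex.1 (i2 j m)
    simp only at this
    omega

/-- The ring of level two. -/
noncomputable def C2 : Subring Fn where
  carrier := Gen v2 fun i => i.2 ≠ 0
  zero_mem' := zero_mem _
  add_mem' := add_mem
  one_mem' := Gen.of (i := (1, 1)) one_ne_zero (Eventually.of_forall fun x => by simp [v2, rp])
  neg_mem' := Gen.neg fun i h => Gen.of (i := (-i.1, i.2)) h (by simp [v2])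
  mul_mem' := Gen.mul fun i j h h' => Gen.of (i := (i.1 * j.1, i.2 * j.2)) (mul_ne_zero h h') (by
    filter_upwards [rp_mul' (fp_pv h).nn.sound (fp_pv h').nn.sound] with x e
    simp [v2, e]
    ring)

noncomputable def D2 : Subring Fn := Loc C2

theorem tot_D2 : ∀ f ∈ D2, Tot f := Loc.tot tot_gen2

theorem nn_D2 {f : Fn} (h : f ∈ D2) (h' : ∀ᶠ x in atTop, 0 ≤ f x) : NN f :=
  (tot_D2 f h).nn (Nf_le h')

theorem pv_D2 (Q : ℚ[X]) : pv Q ∈ D2 :=
  Loc.of (Gen.of (i := (Q, 1)) one_ne_zero (Eventually.of_forall fun x => by simp [v2, rp]))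
theorem pn_D2 (p : ℕ[X]) : pv p ∈ D2 := pv_map p ▸ pv_D2 _
theorem xx_D2 : xx ∈ D2 := by simpa using pv_D2 X
theorem rp_D2 {p : ℕ[X]} (h : p ≠ 0) : rp (pv p) xx ∈ D2 :=
  Loc.of (Gen.of (i := (1, p)) h (by simp [v2]))

end Pool.Agent.MP_b50963_lc

end

-- part MP_b50963_lc.Lev3
section

/-!
Sums of terms `P x * G x ^ x` with exponential polynomials `G`.
-/

set_option autoImplicit false

namespace Pool.Agent.MP_b50963_lc

open Set Filter Topology Real Polynomial Asymptotics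

/-- Exponential polynomials with bases below `a`. -/
noncomputable def EP (a : ℕ) : AddSubmonoid Fn :=
  AddSubmonoid.closure {f | ∃ (p : ℕ[X]) (b : ℕ), 0 < b ∧ b < a ∧ f = pv p * rp b xx}

theorem EP.gen (p : ℕ[X]) {a b : ℕ} (h : 0 < b) (h' : b < a) : pv p * rp b xx ∈ EP a :=
  AddSubmonoid.subset_closure ⟨p, b, h, h', rfl⟩

theorem EP.ind {a : ℕ} {T : Fn → Prop} (h0 : T 0) (ha : ∀ f g, T f → T g → T (f + g))
    (hg : ∀ (p : ℕ[X]) (b : ℕ), 0 < b → b < a → T (pv p * rp b xx)) {f : Fn} (h : f ∈ EP a) :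
    T f := by
  induction h using AddSubmonoid.closure_induction with
  | mem f hf => obtain ⟨p, b, h1, h2, rfl⟩ := hf; exact hg p b h1 h2
  | zero => exact h0
  | add f g _ _ h1 h2 => exact ha f g h1 h2

theorem EP.mono {a b : ℕ} (h : a ≤ b) : EP a ≤ EP b :=
  AddSubmonoid.closure_mono fun _ ⟨p, c, h1, h2, e⟩ => ⟨p, c, h1, h2.trans_le h, e⟩

theorem rpn_D2 {b : ℕ} (h : 0 < b) : rp b xx ∈ D2 := by
  simpa using rp_D2 (p := C b) (by simpa using h.ne')

theorem rpn_pos {b : ℕ} (h : 0 < b) (x : ℝ) : 0 < rp b xx x :=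
  rpow_pos_of_pos (by simpa using h) x

theorem tm_rpn {L : Fn} (s : Sc L) (hL : xx =O[atTop] L) {b : ℕ} (h : 0 < b) : Tm L (rp b xx) :=
  ((Tm.id.mul s (Tm.const (log b))).exp s ((hL.const_mul_left (log b)).congr_left
    fun _ => mul_comm _ _)).congr fun x _ => by
      rw [rp, rpow_def_of_pos (by simpa using h), mul_comm]; rfl

theorem pow_rpow_o {θ φ : ℝ} (h0 : 0 < θ) (h : θ < φ) (n : ℕ) :
    (fun x : ℝ => x ^ n * θ ^ x) =o[atTop] fun x => φ ^ x := by
  refine ((isLittleO_pow_exp_pos_mul_atTop n (sub_pos.2 (log_lt_log h0 h))).mul_isBigO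
    (isBigO_refl (fun x : ℝ => θ ^ x) atTop)).congr_right fun x => ?_
  rw [rpow_def_of_pos h0, rpow_def_of_pos (h0.trans h), ← exp_add]
  congr 1; ring

section
variable {a : ℕ} {R : Fn}

theorem EP.sk (h : R ∈ EP a) : Sk R :=
  EP.ind Sk.zero (fun _ _ => Sk.add) (fun p b _ _ => (sk_pv p).mul ((Sk.nat b).rp Sk.xx)) h

theorem EP.d2 (h : R ∈ EP a) : R ∈ D2 :=
  EP.ind (zero_mem _) (fun _ _ => add_mem) (fun p _ hb _ => mul_mem (pn_D2 p) (rpn_D2 hb)) h

theorem EP.nonneg (h : R ∈ EP a) : ∀ x > 0, 0 ≤ R x :=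
  EP.ind (T := fun R => ∀ x > 0, 0 ≤ R x) (fun _ _ => le_rfl)
    (fun _ _ a b x hx => add_nonneg (a x hx) (b x hx))
    (fun p _ hb _ x hx => mul_nonneg (pv_nonneg p hx) (rpn_pos hb x).le) h

theorem EP.tm {L : Fn} (s : Sc L) (hL : xx =O[atTop] L) (h : R ∈ EP a) : Tm L R :=
  EP.ind (Tm.const 0) (fun _ _ => Tm.add) (fun p _ hb _ => (Tm.poly s p).mul s (tm_rpn s hL hb)) h

theorem EP.small (h : R ∈ EP a) (n : ℕ) :
    (xx ^ n * R) =o[atTop] fun x => ((a : ℝ) - 1 / 2) ^ x := by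
  refine EP.ind (T := fun R => (xx ^ n * R) =o[atTop] fun x => ((a : ℝ) - 1 / 2) ^ x)
    (by rw [mul_zero]; exact isLittleO_zero _ _) (fun _ _ a b => by rw [mul_add]; exact a.add b)
    (fun p b h1 h2 => ?_) h
  have h3 : (b : ℝ) + 1 ≤ a := by exact_mod_cast h2
  refine IsBigO.trans_isLittleO ?_ (pow_rpow_o (θ := b) (by simpa using h1) (by linarith)
    (n + p.natDegree))
  refine ((isBigO_refl (xx ^ n) atTop).mul (((ld_equiv p).isBigO.trans
    (isBigO_const_mul_self _ _ _)).mul (isBigO_refl (rp b xx) atTop))).congr_right fun x => ?_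
  simp [pow_add, rp, mul_assoc]

theorem EP.le (h : R ∈ EP a) (ha : 0 < a) (n : ℕ) :
    ∀ᶠ x in atTop, x ^ n * R x ≤ ((a : ℝ) - 1 / 2) ^ x := by
  have : (1 : ℝ) ≤ a := by exact_mod_cast ha
  refine (EP.small h n).eventuallyLE.mono fun x hx => (le_abs_self _).trans (hx.trans_eq ?_)
  exact abs_of_pos (rpow_pos_of_pos (by linarith) x)

theorem EP.dec (h : R ∈ EP a) : R = 0 ∨ ∃ (p : ℕ[X]) (b : ℕ) (R' : Fn),
    p ≠ 0 ∧ 0 < b ∧ R' ∈ EP b ∧ R = pv p * rp b xx + R' := by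
  induction a generalizing R with
  | zero => exact Or.inl (EP.ind (T := (· = 0)) rfl (by simp +contextual) (by omega) h)
  | succ a ih =>
    obtain ⟨p, R', h1, h2, rfl⟩ : ∃ (p : ℕ[X]) (R' : Fn), (p = 0 ∨ 0 < a) ∧ R' ∈ EP a ∧
        R = pv p * rp a xx + R' := by
      refine EP.ind (T := fun R => ∃ (p : ℕ[X]) (R' : Fn), (p = 0 ∨ 0 < a) ∧ R' ∈ EP a ∧
        R = pv p * rp a xx + R') ⟨0, 0, Or.inl rfl, zero_mem _, by simp⟩ ?_ ?_ h
      · rintro _ _ ⟨p, R, a1, a2, rfl⟩ ⟨p', R', b1, b2, rfl⟩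
        exact ⟨p + p', R + R', by rcases a1 with rfl | a1 <;> simp [*], add_mem a2 b2,
          by simp; ring⟩
      · intro p b h1 h2
        rcases Nat.lt_succ_iff_lt_or_eq.1 h2 with e | rfl
        · exact ⟨0, _, Or.inl rfl, EP.gen p h1 e, by simp⟩
        · exact ⟨p, 0, Or.inr h1, zero_mem _, by simp⟩
    rcases eq_or_ne p 0 with rfl | h0
    · simpa using ih h2
    · exact Or.inr ⟨p, a, R', h0, h1.resolve_left h0, h2, rfl⟩

end

theorem xlog_O {f : Fn} {K : ℝ} (h : ∀ᶠ x in atTop, 1 ≤ f x ∧ f x ≤ K) :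
    (fun x => x * log (f x)) =O[atTop] xx :=
  IsBigO.of_bound K (h.mono fun x e => by
    rw [norm_mul, mul_comm, norm_eq_abs, abs_of_nonneg (log_nonneg e.1)]
    exact mul_le_mul_of_nonneg_right (by linarith [log_le_sub_one_of_pos (one_pos.trans_le e.1)])
      (norm_nonneg _))

theorem pv_div_bd {p : ℕ[X]} (h : p ≠ 0) : ∀ᶠ x in atTop, 1 ≤ pv p x / x ^ p.natDegree ∧
    pv p x / x ^ p.natDegree ≤ 2 * p.leadingCoeff := by
  filter_upwards [eventually_gt_atTop 0, (ld_equiv p).isLittleO.eventuallyLE] with x hx e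
  have h1 : (1 : ℝ) ≤ p.leadingCoeff := Nat.one_le_cast.2 (lc_pos h)
  have h2 := pow_pos hx p.natDegree
  have h3 : ld p x = p.leadingCoeff * x ^ p.natDegree := rfl
  rw [norm_eq_abs, norm_eq_abs, abs_of_pos (ld_pos h hx), Pi.sub_apply] at e
  rw [one_le_div h2, div_le_iff₀ h2]
  exact ⟨by nlinarith [ld_le p hx.le], by linarith [(abs_le.1 e).2]⟩

theorem Ap.low_rp {S : AddSubgroup Fn} {L a w : Fn} (s : Sc L) (ha : Tot a) (hm : Md L a)
    (hw : Fp w) (h : ∀ C : ℝ, ∃ θ, Fp θ ∧ a * rp θ xx ∈ S ∧ NN (θ - w) ∧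
      ∀ᶠ x in Nf, rp θ xx x ≤ exp (-(C * L x))) : Ap S L (a * rp w xx) ∧ Sm L (a * rp w xx) :=
  Ap.low s ha hm hw.rp.nn fun C => by
    obtain ⟨θ, h1, h2, h3, h4⟩ := h C
    exact ⟨_, h2, NN.powl hw h1 h3, h4⟩

/-- Data of a nonzero exponential polynomial. -/
structure E3 (p : ℕ[X]) (a : ℕ) (R : Fn) : Prop where
  hp : p ≠ 0
  ha : 0 < a
  hR : R ∈ EP a

noncomputable def G3 (p : ℕ[X]) (a : ℕ) (R : Fn) : Fn := pv p * rp a xx + R
noncomputable def M3 (a d : ℕ) : Fn := rp a xx * xx ^ d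

theorem fp_M3 {a : ℕ} (h : 0 < a) (d : ℕ) : Fp (M3 a d) := (Fp.nat h).rp.mul (Fp.xx.pow d)
theorem M3_D2 {a : ℕ} (h : 0 < a) (d : ℕ) : M3 a d ∈ D2 := mul_mem (rpn_D2 h) (pow_mem xx_D2 d)
theorem M3_pos {a : ℕ} (h : 0 < a) (d : ℕ) : ∀ x > 0, 0 < M3 a d x :=
  fun x hx => mul_pos (rpn_pos h x) (pow_pos hx d)

namespace E3
variable {p : ℕ[X]} {a : ℕ} {R : Fn} (h : E3 p a R)
include h

theorem ep : G3 p a R ∈ EP (a + 1) :=
  add_mem (EP.gen p h.ha a.lt_succ_self) (EP.mono a.le_succ h.hR)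

theorem pos : ∀ x > 0, 0 < G3 p a R x := fun x hx =>
  add_pos_of_pos_of_nonneg (mul_pos (pv_pos h.hp hx) (rpn_pos h.ha x)) (EP.nonneg h.hR x hx)

theorem rest : ∀ᶠ x in atTop, x * R x / rp a xx x ≤ exp (-(log (a / (a - 1 / 2)) * x)) := by
  have : (1 : ℝ) ≤ a := by exact_mod_cast h.ha
  filter_upwards [EP.le h.hR h.ha 1] with x e
  rw [← neg_mul, ← log_inv, inv_div, ← rpow_def_of_pos (div_pos (by linarith) (by linarith)),
    div_rpow (by linarith) (by linarith)]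
  exact div_le_div_of_nonneg_right (by simpa using e) (rpn_pos h.ha x).le

theorem eta_pos : 0 < log (a / (a - 1 / 2)) := by
  have : (1 : ℝ) ≤ a := by exact_mod_cast h.ha
  exact log_pos ((one_lt_div (by linarith)).2 (by linarith))

theorem bd : ∀ᶠ x in atTop, 1 ≤ G3 p a R x / M3 a p.natDegree x ∧
    G3 p a R x / M3 a p.natDegree x ≤ 2 * p.leadingCoeff + 1 := by
  filter_upwards [pv_div_bd h.hp, h.rest, eventually_ge_atTop 1] with x e1 e2 hx
  have h0 : 0 < x := by linarith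
  have h1 := rpn_pos h.ha x
  have h2 : G3 p a R x / M3 a p.natDegree x =
      pv p x / x ^ p.natDegree + x * R x / rp a xx x / x ^ (p.natDegree + 1) := by
    simp [G3, M3, xx]; field_simp; ring
  have h3 : 0 ≤ x * R x / rp a xx x := div_nonneg (mul_nonneg h0.le (EP.nonneg h.hR x h0)) h1.le
  have h4 := (div_le_self h3 (one_le_pow₀ hx (n := p.natDegree + 1))).trans (e2.trans
    (exp_le_one_iff.2 (neg_nonpos.2 (mul_pos h.eta_pos h0).le)))
  have h5 := div_nonneg h3 (pow_pos h0 (p.natDegree + 1)).le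
  rw [h2]
  exact ⟨by linarith [e1.1], by linarith [e1.2]⟩

theorem fp : Fp (G3 p a R) := by
  refine Fp.of_sk (EP.sk h.ep) (nn_D2 (sub_mem (EP.d2 h.ep) (one_mem _)) ?_)
  filter_upwards [h.bd, eventually_ge_atTop 1] with x e hx
  refine sub_nonneg.2 (le_trans ?_ ((one_le_div (M3_pos h.ha _ x (by linarith))).1 e.1))
  exact one_le_mul_of_one_le_of_one_le (one_le_rpow (Nat.one_le_cast.2 h.ha) (by linarith))
    (one_le_pow₀ hx)

theorem top (P : ℚ[X]) :
    Ap D2.toAddSubgroup xx (pv P * rp (G3 p a R) xx / rp (M3 a p.natDegree) xx) ∧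
      Tm xx (pv P * rp (G3 p a R) xx / rp (M3 a p.natDegree) xx) := by
  have t1 : Tm xx (xx ^ p.natDegree) := 
    (Tm.poly sc_id (X ^ p.natDegree : ℕ[X])).congr fun _ _ => by simp
  constructor
  · have hB := (fp_pv h.hp).mul (Fp.nat h.ha).rp
    have hx := Fp.xx.pow p.natDegree
    have hw : G3 p a R / (pv p * rp a xx) - 1 ∈ D2 :=
      sub_mem (Loc.div (EP.d2 h.ep) (mul_mem (pn_D2 p) (rpn_D2 h.ha)) hB) (one_mem _)
    have ha : pv P * rp (pv p / xx ^ p.natDegree) xx ∈ D2 := mul_mem (pv_D2 P) (Loc.congr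
      (Loc.div (rp_D2 h.hp) (by simpa [D2] using rp_D2 (pow_ne_zero p.natDegree X_ne_zero)) hx.rp)
      (rp_div' (fp_pv h.hp).nn.sound hx.nn.sound).symm)
    have h2 : 2 * xx * (G3 p a R / (pv p * rp a xx) - 1) ∈ D2 :=
      mul_mem (mul_mem (ofNat_mem _ 2) xx_D2) hw
    refine (Ap.bin sc_id (tot_D2 _ ha) ((md_pv P sc_id).mul (((Tm.poly sc_id p).rpow sc_id t1
      (fun _ => pv_pos h.hp) (fun _ e => pow_pos e _) (xlog_O (pv_div_bd h.hp))).md sc_id).1)
      (h.fp.div hB) (tot_D2 _ (add_mem (one_mem _) h2)) (tot_D2 _ (sub_mem (one_mem _) h2))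
      h.eta_pos (Nf_le ?_) fun Q k => D2.mul_mem ha (mul_mem (pv_D2 Q) (pow_mem hw k))).congr ?_
    · filter_upwards [h.rest, eventually_ge_atTop 1] with x e hx
      have h0 : 0 < x := by linarith
      have h1 := rpn_pos h.ha x
      have h3 := one_le_pv h.hp hx
      have h4 : 0 ≤ x * R x / rp a xx x := div_nonneg (mul_nonneg h0.le (EP.nonneg h.hR x h0)) h1.le
      have : x * ((G3 p a R / (pv p * rp a xx)) x - 1) = x * R x / rp a xx x / pv p x := by
        simp [G3]; field_simp; ring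
      rw [this, abs_of_nonneg (div_nonneg h4 (by linarith))]
      exact (div_le_self h4 h3).trans e
    · rw [mul_assoc, mul_div_assoc]
      refine .mul .rfl ((rp_mul' ((fp_pv h.hp).div hx).nn.sound (h.fp.div hB).nn.sound).symm.trans
        (.trans (rp_congr ?_ .rfl) (rp_div' h.fp.nn.sound (fp_M3 h.ha _).nn.sound)))
      filter_upwards [(fp_pv h.hp).ne] with x e
      simp [M3]
      field_simp
  · refine ((Tm.poly sc_id P).mul sc_id ((EP.tm sc_id (isBigO_refl _ _) h.ep).rpow sc_id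
      ((tm_rpn sc_id (isBigO_refl _ _) h.ha).mul sc_id t1) h.pos (M3_pos h.ha _)
      (xlog_O h.bd))).congr fun x hx => ?_
    exact (mul_div_assoc _ _ _).trans
      (congrArg _ (div_rpow (h.pos x hx).le (M3_pos h.ha _ x hx).le x).symm)

theorem tendsto_low {b d : ℕ} (k : a < b ∨ a = b ∧ p.natDegree < d) :
    Tendsto (G3 p a R / M3 b d) atTop (𝓝 0) := by
  rcases k with k | ⟨rfl, k⟩
  · have hb : (1 : ℝ) ≤ b := Nat.one_le_cast.2 (h.ha.trans k)
    refine (IsLittleO.trans_isBigO (by simpa using EP.small (EP.mono k h.ep) 0)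
      (IsBigO.of_bound' ?_)).tendsto_div_nhds_zero
    filter_upwards [eventually_ge_atTop 1] with x hx
    rw [norm_eq_abs, norm_eq_abs, abs_of_pos (rpow_pos_of_pos (by linarith) x)]
    refine ((rpow_le_rpow (y := b) (by linarith) (by linarith) (by linarith)).trans
      (le_mul_of_one_le_right (rpn_pos (h.ha.trans k) x).le (one_le_pow₀ hx))).trans (le_abs_self _)
  · obtain ⟨m, rfl⟩ := Nat.exists_eq_add_of_lt k
    have : (G3 p a R / M3 a p.natDegree) =O[atTop] fun _ => (1 : ℝ) :=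
      IsBigO.of_bound _ (h.bd.mono fun x e => by
        rw [norm_one, mul_one, norm_eq_abs, Pi.div_apply, abs_of_pos (one_pos.trans_le e.1)]
        exact e.2)
    refine ((isLittleO_one_iff ℝ).1 ((this.mul_isLittleO ((isLittleO_one_iff ℝ).2
      (tendsto_pow_atTop (α := ℝ) m.succ_ne_zero).inv_tendsto_atTop)).congr_right
      fun _ => one_mul 1)).congr fun x => ?_
    simp [M3, add_assoc, pow_add, div_eq_mul_inv]
    ring

theorem low {b d : ℕ} (hb : 0 < b) (k : a < b ∨ a = b ∧ p.natDegree < d) (P : ℚ[X]) :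
    Ap D2.toAddSubgroup xx (pv P * rp (G3 p a R) xx / rp (M3 b d) xx) ∧
      Sm xx (pv P * rp (G3 p a R) xx / rp (M3 b d) xx) := by
  have h4 := Ap.low_rp (S := D2.toAddSubgroup) sc_id (tot_pv P) (md_pv P sc_id)
    (h.fp.div (fp_M3 hb d)) fun C => by
      obtain ⟨N, hN⟩ := exists_nat_ge (exp C)
      have h0 : (0 : ℝ) < N := (exp_pos C).trans_le hN
      have h1 : 0 < N := by exact_mod_cast h0
      refine ⟨1 / N, Fp.one.div (Fp.nat h1), D2.mul_mem (pv_D2 P) (Loc.congr (Loc.div (rpn_D2 one_pos)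
        (rpn_D2 h1) (Fp.nat h1).rp) ?_), nn_D2 (sub_mem (Loc.div (one_mem _) (natCast_mem _ _)
        (Fp.nat h1)) (Loc.div (EP.d2 h.ep) (M3_D2 hb d) (fp_M3 hb d))) ?_, pos_ev.mono fun x hx => ?_⟩
      · simpa using (rp_div' nn_one.sound (nn_nat N).sound).symm
      · exact ((h.tendsto_low k).eventually_le_const (one_div_pos.2 h0)).mono fun x e =>
          sub_nonneg.2 e
      · rw [← neg_mul, exp_mul, exp_neg, ← one_div]
        exact rpow_le_rpow (one_div_pos.2 h0).le (one_div_le_one_div_of_le (exp_pos C) hN) hx.le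
  have e : pv P * rp (G3 p a R / M3 b d) xx =ᶠ[Nf] pv P * rp (G3 p a R) xx / rp (M3 b d) xx := by
    rw [mul_div_assoc]
    exact .mul .rfl (rp_div' h.fp.nn.sound (fp_M3 hb d).nn.sound)
  exact ⟨h4.1.congr e, h4.2.congr e⟩

end E3

noncomputable def v3 (i : ℚ[X] × ℕ[X] × ℕ × Fn) : Fn := pv i.1 * rp (G3 i.2.1 i.2.2.1 i.2.2.2) xx

theorem tot_gen3 : ∀ f ∈ Gen v3 fun i => E3 i.2.1 i.2.2.1 i.2.2.2, Tot f := by
  rintro f ⟨l, h1, h2⟩
  refine (grp v3 _ (fun l h0 hl => Or.inr ?_) l h1).congr h2.symm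
  obtain ⟨i, i1, i2⟩ := exists_max (fun i : ℚ[X] × ℕ[X] × ℕ × Fn =>
    toLex (i.2.2.1, i.2.1.natDegree)) h0
  refine ⟨fun j => j.2.2.1 = i.2.2.1 ∧ j.2.1.natDegree = i.2.1.natDegree,
    rp (M3 i.2.2.1 i.2.1.natDegree) xx, D2.toAddSubgroup, xx, sc_id, (fp_M3 (hl i i1).ha _).rp,
    tot_D2, ⟨i, i1, rfl, rfl⟩, fun j m t => ?_, fun j m t => ?_⟩
  · rw [← t.1, ← t.2]
    exact (hl j m).top j.1
  · refine (hl j m).low (hl i i1).ha ?_ j.1
    have := Prod.Lex.toLex_le_toLex.1 (i2 j m)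
    simp only at this
    omega

end Pool.Agent.MP_b50963_lc

end

-- part MP_b50963_lc.Lev4
section

/-!
Sums of terms `P x * G x ^ x` where `G` is a sum of functions `(x + a) ^ x` and an exponential
polynomial.
-/

set_option autoImplicit false

namespace Pool.Agent.MP_b50963_lc

open Set Filter Topology Real Polynomial Asymptotics

/-- The sum of the functions `(x + a) ^ x` with multiplicities. -/
noncomputable def W (o : ℕ[X]) : Fn := o.sum fun a n => n * rp (xx + a) xx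
noncomputable def U (o : ℕ[X]) : Fn := W o / rp xx xx

@[simp] theorem W_zero : W 0 = 0 := sum_zero_index _
theorem W_add (o o' : ℕ[X]) : W (o + o') = W o + W o' :=
  sum_add_index _ _ _ (by simp) (by simp [add_mul])
theorem W_mon (a n : ℕ) : W (monomial a n) = n * rp (xx + a) xx :=
  sum_monomial_index _ _ (by simp)
theorem W_one : W 1 = rp xx xx := by simpa using W_mon 0 1

theorem W_ind {T : ℕ[X] → Fn → Prop} (ha : ∀ o o' f g, T o f → T o' g → T (o + o') (f + g))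
    (hm : ∀ a n : ℕ, T (monomial a n) (n * rp (xx + a) xx)) (o : ℕ[X]) : T o (W o) := by
  induction o using Polynomial.induction_on' with
  | add p q h1 h2 => rw [W_add]; exact ha _ _ _ _ h1 h2
  | monomial a n => rw [W_mon]; exact hm a n

theorem W_smul (b : ℕ) (o : ℕ[X]) : W (C b * o) = b * W o :=
  W_ind (T := fun o f => W (C b * o) = b * f)
    (fun _ _ _ _ h1 h2 => by rw [mul_add, W_add, h1, h2, mul_add])
    (fun a n => by rw [C_mul_monomial, W_mon, Nat.cast_mul, mul_assoc]) o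

theorem sk_W (o : ℕ[X]) : Sk (W o) :=
  W_ind (T := fun _ f => Sk f) (fun _ _ _ _ => Sk.add)
    (fun a n => (Sk.nat n).mul ((Sk.xx.add (Sk.nat a)).rp Sk.xx)) o

theorem W_D2 (o : ℕ[X]) : W o ∈ D2 :=
  W_ind (T := fun _ f => f ∈ D2) (fun _ _ _ _ => add_mem) (fun a n => mul_mem (natCast_mem _ n)
    (by simpa using rp_D2 (p := X + C a) (monic_X_add_C a).ne_zero)) o

theorem xx_O : xx =O[atTop] fun x => x * log x :=
  IsBigO.of_bound' ((tendsto_log_atTop.eventually_ge_atTop 1).mono fun x hx => by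
    rw [norm_mul]
    exact le_mul_of_one_le_right (norm_nonneg _) (hx.trans (le_abs_self _)))

theorem tm_W (o : ℕ[X]) : Tm (fun x => x * log x) (W o) := by
  refine W_ind (T := fun _ f => Tm (fun x => x * log x) f) (fun _ _ _ _ => Tm.add)
    (fun a n => (Tm.const n).mul sc_xlog ?_) o
  refine ((Tm.id.add (Tm.const a)).rpow sc_xlog (Tm.const 1) (fun x hx => by simp; positivity)
    (fun _ _ => one_pos) (IsBigO.of_bound 2 ?_)).congr fun x _ => by simp [rp]
  filter_upwards [eventually_ge_atTop (a + 2 : ℝ)] with x hx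
  have h0 : (0 : ℝ) ≤ a := a.cast_nonneg
  have h1 : log (x + a) ≤ log (x ^ 2) := log_le_log (by linarith) (by nlinarith)
  rw [log_pow] at h1
  rw [norm_mul, norm_mul, mul_left_comm, div_one]
  refine mul_le_mul_of_nonneg_left ?_ (norm_nonneg _)
  rw [norm_eq_abs, norm_eq_abs, abs_of_nonneg (log_nonneg (by simp; linarith)),
    abs_of_nonneg (log_nonneg (by linarith))]
  exact_mod_cast h1

theorem xx_pos {x : ℝ} (hx : 0 < x) : 0 < rp xx xx x := rpow_pos_of_pos hx x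

theorem tendsto_U (o : ℕ[X]) : Tendsto (U o) atTop (𝓝 (pv o (exp 1))) := by
  refine W_ind (T := fun o f => Tendsto (f / rp xx xx) atTop (𝓝 (pv o (exp 1))))
    (fun _ _ _ _ h1 h2 => by rw [fadd_div, pv_add]; exact h1.add h2) (fun a n => ?_) o
  have := (tendsto_one_add_div_rpow_exp a).const_mul (n : ℝ)
  rw [show (n : ℝ) * exp a = pv (monomial a n) (exp 1) by simp [pv, ← exp_nat_mul]] at this
  refine this.congr' ((eventually_gt_atTop 0).mono fun x hx => ?_)
  simp only [Pi.mul_apply, Pi.div_apply, rp, Pi.add_apply, Pi.natCast_apply]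
  rw [one_add_div hx.ne', div_rpow (by positivity) hx.le, mul_div_assoc]

theorem le_W (o : ℕ[X]) {x : ℝ} (hx : 0 < x) : pv o 1 * rp xx xx x ≤ W o x :=
  W_ind (T := fun o f => pv o 1 * rp xx xx x ≤ f x)
    (fun _ _ _ _ h1 h2 => by simpa [add_mul] using add_le_add h1 h2) (fun a n => by
      simpa [pv, rp] using mul_le_mul_of_nonneg_left
        (rpow_le_rpow hx.le (le_add_of_nonneg_right a.cast_nonneg) hx.le) n.cast_nonneg) o

section
variable {o o' : ℕ[X]}

theorem xx_le_W (h : o ≠ 0) {x : ℝ} (hx : 0 < x) : rp xx xx x ≤ W o x :=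
  (le_mul_of_one_le_left (xx_pos hx).le (one_le_pv h le_rfl)).trans (le_W o hx)

theorem W_pos (h : o ≠ 0) {x : ℝ} (hx : 0 < x) : 0 < W o x := (xx_pos hx).trans_le (xx_le_W h hx)

theorem one_le_U (h : o ≠ 0) {x : ℝ} (hx : 0 < x) : 1 ≤ U o x :=
  (one_le_div (xx_pos hx)).2 (xx_le_W h hx)

theorem one_le_xx {x : ℝ} (hx : 1 ≤ x) : 1 ≤ rp xx xx x := one_le_rpow hx (by linarith)

theorem fp_W (h : o ≠ 0) : Fp (W o) :=
  Fp.of_sk (sk_W o) (nn_D2 (sub_mem (W_D2 o) (one_mem _)) ((eventually_ge_atTop 1).mono fun x hx =>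
    sub_nonneg.2 ((one_le_xx hx).trans (xx_le_W h (by linarith)))))

theorem xxx_D2 : rp xx xx ∈ D2 := W_one ▸ W_D2 1
theorem fp_U (h : o ≠ 0) : Fp (U o) := (fp_W h).div Fp.xx.rp
theorem U_D2 (o : ℕ[X]) : U o ∈ D2 := Loc.div (W_D2 o) xxx_D2 Fp.xx.rp

theorem pv_e_inj (h : pv o (exp 1) = pv o' (exp 1)) : o = o' := by
  have := hermite one_pos (P := o.map (algebraMap ℕ ℚ) - o'.map (algebraMap ℕ ℚ)) (by
    rw [map_sub, aeval_map_algebraMap, aeval_map_algebraMap, Nat.cast_one, div_one]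
    exact sub_eq_zero.2 h)
  exact map_injective _ Nat.cast_injective (sub_eq_zero.1 this)

theorem cq_D2 (q : ℚ) : cq q ∈ D2 := by
  convert pv_D2 (C q)
  funext x; simp [pv]

theorem rp_cq_D2 {q : ℚ} (h : 0 < q) : rp (cq q) xx ∈ D2 := by
  have h1 : 0 < q.num.toNat := by simpa using h
  refine Loc.congr (Loc.div (rpn_D2 h1) (rpn_D2 q.pos) (Fp.nat q.pos).rp) (.trans
    (rp_div' (nn_nat _).sound (nn_nat _).sound).symm (rp_congr (.of_forall fun x => ?_) .rfl))
  have : ((q.num.toNat : ℕ) : ℝ) = q.num := by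
    exact_mod_cast Int.toNat_of_nonneg (Rat.num_nonneg.2 h.le)
  simp [this, Rat.cast_def]

theorem pow_rpow_le {θ φ : ℝ} (h0 : 0 < θ) (h : θ < φ) (n : ℕ) (K : ℝ) :
    ∀ᶠ x : ℝ in atTop, K * (x ^ n * θ ^ x) ≤ φ ^ x :=
  ((pow_rpow_o h0 h n).const_mul_left K).eventuallyLE.mono fun x e =>
    (le_abs_self _).trans (e.trans_eq (abs_of_pos (rpow_pos_of_pos (h0.trans h) x)))

noncomputable def Y4 (o : ℕ[X]) (k : ℕ) : Fn := rp (U o) xx / W o ^ k

theorem fp_Y4 (h : o ≠ 0) (k : ℕ) : Fp (Y4 o k) := (fp_U h).rp.div ((fp_W h).pow k)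

theorem Y4_pos (h : o ≠ 0) (k : ℕ) {x : ℝ} (hx : 0 < x) : 0 < Y4 o k x :=
  div_pos (rpow_pos_of_pos (one_pos.trans_le (one_le_U h hx)) _) (pow_pos (W_pos h hx) k)

theorem low_Y4 (h : o ≠ 0) (h' : o' ≠ 0) {k k' : ℕ}
    (hk : k < k' ∨ k = k' ∧ pv o' (exp 1) < pv o (exp 1)) (N : ℕ) :
    NN ((xx ^ N)⁻¹ - Y4 o' k' / Y4 o k) := by
  have h1 : 0 < pv o (exp 1) := pv_pos h (exp_pos 1)
  have h2 := (tendsto_U o').div (tendsto_U o) h1.ne'
  obtain ⟨θ, t0, t1, t2⟩ : ∃ θ : ℚ, 0 < θ ∧ pv o' (exp 1) / pv o (exp 1) < θ ∧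
      ∀ᶠ x : ℝ in atTop, (pv o (exp 1) + 1) ^ k * (x ^ N * (θ : ℝ) ^ x) * rp xx xx x ^ k ≤
        rp xx xx x ^ k' := by
    have p := div_pos (pv_pos h' (exp_pos 1)) h1
    rcases hk with hk | ⟨rfl, hk⟩
    · obtain ⟨θ, t⟩ := exists_rat_gt (pv o' (exp 1) / pv o (exp 1))
      refine ⟨θ, by exact_mod_cast p.trans t, t, ?_⟩
      filter_upwards [pow_rpow_le (p.trans t) (lt_add_one _) N ((pv o (exp 1) + 1) ^ k),
        eventually_ge_atTop ((θ : ℝ) + 1), eventually_ge_atTop 1] with x e1 e2 e3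
      refine le_trans ?_ (pow_le_pow_right₀ (one_le_xx e3) hk)
      rw [pow_succ']
      exact mul_le_mul_of_nonneg_right (e1.trans (rpow_le_rpow (by linarith) e2 (by linarith)))
        (pow_pos (xx_pos (by linarith)) k).le
    · obtain ⟨θ, t, t'⟩ := exists_rat_btwn ((div_lt_one h1).2 hk)
      refine ⟨θ, by exact_mod_cast p.trans t, t, ?_⟩
      filter_upwards [pow_rpow_le (p.trans t) t' N ((pv o (exp 1) + 1) ^ k),
        eventually_gt_atTop 0] with x e1 e2
      exact mul_le_of_le_one_left (pow_pos (xx_pos e2) k).le (by simpa using e1)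
  have h3 := (fp_U h').div (fp_U h)
  have h4 := ((fp_W h).pow k).div ((fp_W h').pow k')
  have h5 := NN.powl h3 (Fp.cq t0) (nn_D2 (sub_mem (cq_D2 θ) (Loc.div (U_D2 _) (U_D2 _) (fp_U h)))
    ((h2.eventually_le_const t1).mono fun x e => sub_nonneg.2 e))
  have h6 : NN (1 / xx ^ N - rp (cq θ) xx * (W o ^ k / W o' ^ k')) := by
    refine nn_D2 (sub_mem (Loc.div (one_mem _) (pow_mem xx_D2 N) (Fp.xx.pow N)) (mul_mem (rp_cq_D2 t0)
      (Loc.div (pow_mem (W_D2 o) k) (pow_mem (W_D2 o') k') ((fp_W h').pow k')))) ?_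
    filter_upwards [t2, (tendsto_U o).eventually_le_const (lt_add_one _), eventually_gt_atTop 0]
      with x e1 e2 hx
    have a1 : W o x ^ k ≤ ((pv o (exp 1) + 1) * rp xx xx x) ^ k :=
      pow_le_pow_left₀ (W_pos h hx).le ((div_le_iff₀ (xx_pos hx)).1 e2) k
    have a2 := pow_le_pow_left₀ (xx_pos hx).le (xx_le_W h' hx) k'
    have a3 : 0 < x ^ N * (θ : ℝ) ^ x := by positivity
    refine sub_nonneg.2 ?_
    change (θ : ℝ) ^ x * (W o x ^ k / W o' x ^ k') ≤ 1 / x ^ N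
    rw [← mul_div_assoc, div_le_div_iff₀ (pow_pos (W_pos h' hx) _) (pow_pos hx _)]
    rw [mul_pow] at a1
    nlinarith [mul_le_mul_of_nonneg_left a1 a3.le]
  refine (h6.add (h5.mul h4.nn)).congr ?_
  filter_upwards [rp_div' (fp_U h').nn.sound (fp_U h).nn.sound] with x e
  simp [Y4, e]
  field_simp
  ring

end

noncomputable def u4 (i : ℚ[X] × ℕ[X] × ℕ) : Fn := pv i.1 * Y4 i.2.1 i.2.2

noncomputable def D4 : AddSubgroup Fn where
  toAddSubmonoid := Gen u4 fun i => i.2.1 ≠ 0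
  neg_mem' := Gen.neg fun i h => Gen.of (i := (-i.1, i.2)) h (by simp [u4])

theorem tot_D4 : ∀ f ∈ D4, Tot f := by
  rintro f ⟨l, h1, h2⟩
  refine (grp u4 _ (fun l h0 hl => Or.inr ?_) l h1).congr h2.symm
  obtain ⟨i, i1, i2⟩ := exists_max (fun i : ℚ[X] × ℕ[X] × ℕ =>
    toLex (OrderDual.toDual i.2.2, pv i.2.1 (exp 1))) h0
  refine ⟨fun j => j.2 = i.2, Y4 i.2.1 i.2.2, (D1 1).toAddSubgroup, log, sc_log,
    fp_Y4 (hl i i1) _, tot_D1 one_pos, ⟨i, i1, rfl⟩, fun j m t => ?_, fun j m t => ?_⟩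
  · have e : ∀ x > 0, (u4 j / Y4 i.2.1 i.2.2) x = pv j.1 x := fun x hx => by
      simp [u4, t, (Y4_pos (hl i i1) i.2.2 hx).ne']
    exact ⟨(Ap.of_mem (pv_D1 1 j.1)).congr (pos_ev.mono fun x hx => (e x hx).symm),
      (Tm.poly sc_log j.1).congr e⟩
  · rw [u4, mul_div_assoc]
    refine low_D1 one_pos j.1 ((fp_Y4 (hl j m) _).div (fp_Y4 (hl i i1) _)).nn
      (low_Y4 (hl i i1) (hl j m) ?_)
    refine (Prod.Lex.toLex_le_toLex.1 (i2 j m)).imp id fun k => ⟨k.1.symm, k.2.lt_of_ne fun e => ?_⟩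
    exact t (Prod.ext (pv_e_inj e) k.1)

theorem D4.ep {a : ℕ} {g h : Fn} (hg : g ∈ EP a) (hh : h ∈ D4) : g * h ∈ D4 := by
  refine EP.ind (T := fun g => g * h ∈ D4) (by simp)
    (fun _ _ a b => by rw [add_mul]; exact add_mem a b) (fun p b hb _ => ?_) hg
  refine Gen.smul (fun i hi => Gen.of (i := (p.map (algebraMap ℕ ℚ) * i.1 * (b : ℚ[X]) ^ i.2.2,
    C b * i.2.1, i.2.2)) (mul_ne_zero (by simpa using hb.ne') hi) ?_) hh
  filter_upwards [rp_mul' (nn_nat b).sound (fp_U hi).nn.sound, (Fp.nat hb).ne] with x e e'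
  have : U (C b * i.2.1) = b * U i.2.1 := by rw [U, W_smul, mul_div_assoc, U]
  simp only [u4, Y4, this, W_smul, pv_mul, pv_map, pv_pow, pv_nat, Pi.mul_apply, Pi.div_apply,
    Pi.pow_apply, e, mul_pow]
  field_simp

theorem EP.xle {a : ℕ} {g : Fn} (hg : g ∈ EP a) (n : ℕ) :
    ∀ᶠ x in atTop, x ^ n * g x ≤ rp xx xx x * exp (-(1 / 2 * (x * log x))) := by
  filter_upwards [EP.le (EP.mono a.le_succ hg) a.succ_pos n, eventually_gt_atTop 0,
    (tendsto_rpow_atTop one_half_pos).eventually_ge_atTop ((a + 1 : ℕ) : ℝ)] with x e hx e'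
  have : (0 : ℝ) ≤ a := a.cast_nonneg
  refine (e.trans (rpow_le_rpow (by push_cast; linarith) ((sub_le_self _ one_half_pos.le).trans e')
    hx.le)).trans_eq ?_
  rw [← rpow_mul hx.le, rp, rpow_def_of_pos hx, rpow_def_of_pos hx, ← exp_add]
  congr 1
  simp only [xx]
  ring

theorem EP.xle' {a : ℕ} {g : Fn} (hg : g ∈ EP a) (n : ℕ) :
    ∀ᶠ x in atTop, x ^ n * g x ≤ rp xx xx x := by
  filter_upwards [EP.xle hg n, eventually_ge_atTop 1] with x e hx
  exact e.trans (mul_le_of_le_one_right (xx_pos (by linarith)).le (exp_le_one_iff.2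
    (neg_nonpos.2 (mul_nonneg one_half_pos.le (mul_nonneg (by linarith) (log_nonneg hx))))))

theorem G4_bd {o : ℕ[X]} (h : o ≠ 0) {a : ℕ} {g : Fn} (hg : g ∈ EP a) : ∀ᶠ x in atTop,
    1 ≤ (W o + g) x / rp xx xx x ∧ (W o + g) x / rp xx xx x ≤ pv o (exp 1) + 2 := by
  filter_upwards [EP.xle' hg 0, (tendsto_U o).eventually_le_const (lt_add_one _),
    eventually_gt_atTop 0] with x e1 e2 hx
  have h1 := div_nonneg (EP.nonneg hg x hx) (xx_pos hx).le
  have h2 := (div_le_one (xx_pos hx)).2 (by simpa using e1 : g x ≤ _)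
  have h3 := one_le_U h hx
  rw [Pi.add_apply, add_div]
  change 1 ≤ U o x + _ ∧ U o x + _ ≤ _
  exact ⟨by linarith, by linarith⟩

theorem tm_G4 {o : ℕ[X]} (h : o ≠ 0) {a : ℕ} {g : Fn} (hg : g ∈ EP a) :
    Tm (fun x => x * log x) (rp ((W o + g) / rp xx xx) xx) :=
  ((tm_W o).add (EP.tm sc_xlog xx_O hg)).rpow sc_xlog (W_one ▸ tm_W 1)
    (fun x hx => add_pos_of_pos_of_nonneg (W_pos h hx) (EP.nonneg hg x hx)) (fun _ => xx_pos)
    ((xlog_O (G4_bd h hg)).trans xx_O)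

theorem fp_G4 {o : ℕ[X]} (h : o ≠ 0) {a : ℕ} {g : Fn} (hg : g ∈ EP a) : Fp (W o + g) :=
  Fp.of_sk ((sk_W o).add (EP.sk hg)) (nn_D2 (sub_mem (add_mem (W_D2 o) (EP.d2 hg)) (one_mem _))
    ((eventually_ge_atTop 1).mono fun x hx => sub_nonneg.2 ((one_le_xx hx).trans
      ((xx_le_W h (by linarith)).trans (le_add_of_nonneg_right (EP.nonneg hg x (by linarith)))))))

theorem top4 {o : ℕ[X]} (h : o ≠ 0) {a : ℕ} {g : Fn} (hg : g ∈ EP a) (P : ℚ[X]) :
    Ap D4 (fun x => x * log x) (pv P * rp (W o + g) xx / rp (rp xx xx) xx) ∧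
      Tm (fun x => x * log x) (pv P * rp (W o + g) xx / rp (rp xx xx) xx) := by
  constructor
  · have hw : (W o + g) / W o - 1 ∈ D2 :=
      sub_mem (Loc.div (add_mem (W_D2 o) (EP.d2 hg)) (W_D2 o) (fp_W h)) (one_mem _)
    have h2 : 2 * xx * ((W o + g) / W o - 1) ∈ D2 := mul_mem (mul_mem (ofNat_mem _ 2) xx_D2) hw
    refine (Ap.bin (a := pv P * rp (U o) xx) sc_xlog ((tot_pv P).mul (fp_U h).rp.nn)
      ((md_pv P sc_xlog).mul (by simpa [U] using ((tm_G4 h (zero_mem (EP 0))).md sc_xlog).1))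
      ((fp_G4 h hg).div (fp_W h)) (tot_D2 _ (add_mem (one_mem _) h2))
      (tot_D2 _ (sub_mem (one_mem _) h2)) one_half_pos (Nf_le ?_) fun Q k => ?_).congr ?_
    · filter_upwards [EP.xle hg 1, eventually_gt_atTop 0] with x e hx
      have h1 := W_pos h hx
      have : x * (((W o + g) / W o) x - 1) = x ^ 1 * g x / W o x := by simp; field_simp; ring
      rw [this, abs_of_nonneg (div_nonneg (mul_nonneg (by positivity) (EP.nonneg hg x hx)) h1.le),
        div_le_iff₀' h1]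
      exact e.trans (mul_le_mul_of_nonneg_right (xx_le_W h hx) (exp_pos _).le)
    · have : ∀ n, g ^ n * u4 (P * Q, o, k) ∈ D4 := fun n => by
        induction n with
        | zero => exact Gen.of (i := (P * Q, o, k)) h (by simp)
        | succ n ih => rw [pow_succ', mul_assoc]; exact D4.ep hg ih
      refine Gen.congr (this k) ((fp_W h).ne.mono fun x e => ?_)
      have : (W o x + g x) / W o x - 1 = g x / W o x := by field_simp; ring
      simp [u4, Y4, this, div_pow]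
      ring
    · rw [mul_assoc, mul_div_assoc]
      refine .mul .rfl ((rp_mul' (fp_U h).nn.sound ((fp_G4 h hg).div (fp_W h)).nn.sound).symm.trans
        (.trans (rp_congr ?_ .rfl) (rp_div' (fp_G4 h hg).nn.sound Fp.xx.rp.nn.sound)))
      filter_upwards [(fp_W h).ne] with x e
      simp [U]
      field_simp
  · refine ((Tm.poly sc_xlog P).mul sc_xlog (tm_G4 h hg)).congr fun x hx => ?_
    exact (mul_div_assoc _ _ _).trans (congrArg _ (div_rpow (add_nonneg (W_pos h hx).le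
      (EP.nonneg hg x hx)) (xx_pos hx).le x).symm)

theorem EP.fp {a : ℕ} {g : Fn} (hg : g ∈ EP a) (h : g ≠ 0) : Fp g := by
  obtain ⟨p, b, R, h1, h2, h3, rfl⟩ := (EP.dec hg).resolve_left h
  exact E3.fp ⟨h1, h2, h3⟩

theorem low4 {a : ℕ} {g : Fn} (hg : g ∈ EP a) (h : g ≠ 0) (P : ℚ[X]) :
    Ap D4 (fun x => x * log x) (pv P * rp g xx / rp (rp xx xx) xx) ∧
      Sm (fun x => x * log x) (pv P * rp g xx / rp (rp xx xx) xx) := by
  have h4 := Ap.low_rp (S := D4) sc_xlog (tot_pv P) (md_pv P sc_xlog)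
    ((EP.fp hg h).div Fp.xx.rp) fun C => by
      obtain ⟨N, hN⟩ := exists_nat_ge C
      refine ⟨1 / xx ^ N, Fp.one.div (Fp.xx.pow N), Gen.of (i := (P, 1, N)) one_ne_zero
        (pos_ev.mono fun x hx => ?_), nn_D2 (sub_mem (Loc.div (one_mem _) (pow_mem xx_D2 N)
        (Fp.xx.pow N)) (Loc.div (EP.d2 hg) xxx_D2 Fp.xx.rp)) ?_, Nf_le ?_⟩
      · have := (rpow_pos_of_pos hx x).ne'
        simp [u4, Y4, U, W_one, rp, this, inv_rpow (pow_pos hx N).le, rpow_pow_comm hx.le]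
      · filter_upwards [EP.xle' hg N, eventually_gt_atTop 0] with x e hx
        exact sub_nonneg.2 ((div_le_div_iff₀ (xx_pos hx) (pow_pos hx N)).2 (by
          rw [mul_comm, Pi.one_apply, one_mul]; exact e))
      · filter_upwards [eventually_ge_atTop 1] with x hx
        refine (rpow_le_rpow (by simp; positivity) ((one_div _).trans_le (exp_le_inv_pow hN hx))
          (by linarith)).trans_eq ?_
        rw [← exp_mul]
        congr 1
        simp only [xx]
        ring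
  have e : pv P * rp (g / rp xx xx) xx =ᶠ[Nf] pv P * rp g xx / rp (rp xx xx) xx := by
    rw [mul_div_assoc]
    exact .mul .rfl (rp_div' (EP.sk hg).nn.sound Fp.xx.rp.nn.sound)
  exact ⟨h4.1.congr e, h4.2.congr e⟩

noncomputable def v4 (i : ℚ[X] × ℕ[X] × Fn) : Fn := pv i.1 * rp (W i.2.1 + i.2.2) xx
def good4 (i : ℚ[X] × ℕ[X] × Fn) : Prop := (∃ a, i.2.2 ∈ EP a) ∧ (i.2.1 ≠ 0 ∨ i.2.2 ≠ 0)

theorem tot_gen4 : ∀ f ∈ Gen v4 good4, Tot f := by
  rintro f ⟨l, h1, h2⟩
  refine (grp v4 _ (fun l _ hl => ?_) l h1).congr h2.symm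
  by_cases h : ∃ i ∈ l, i.2.1 ≠ 0
  · refine Or.inr ⟨fun i => i.2.1 ≠ 0, rp (rp xx xx) xx, D4, _, sc_xlog, Fp.xx.rp.rp, tot_D4, h,
      fun j m t => ?_, fun j m t => ?_⟩
    · obtain ⟨a, ha⟩ := (hl j m).1
      exact top4 t ha j.1
    · obtain ⟨a, ha⟩ := (hl j m).1
      rw [v4, not_not.1 t, W_zero, zero_add]
      exact low4 ha ((hl j m).2.resolve_left t) j.1
  · push Not at h
    refine Or.inl (tot_gen3 _ (list_sum_mem fun f m' => ?_))
    obtain ⟨j, m, rfl⟩ := List.mem_map.1 m'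
    obtain ⟨a, ha⟩ := (hl j m).1
    obtain ⟨p, b, R, k1, k2, k3, e⟩ := (EP.dec ha).resolve_left
      ((hl j m).2.resolve_left (not_not.2 (h j m)))
    exact Gen.of (i := (j.1, p, b, R)) ⟨k1, k2, k3⟩ (by simp [v3, v4, G3, h j m, e])

end Pool.Agent.MP_b50963_lc

end

-- part MP_b50963_lc.Struct
section

/-!
The structure of small exponential terms, with provable lower bounds for the others.
-/

set_option autoImplicit false

namespace Pool.Agent.MP_b50963_lc

open Set Filter Topology Real Polynomial Asymptotics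

theorem sk_ind {T : Fn → Prop} (hc : ∀ f g, T f → f =ᶠ[Nf] g → T g) (hx : T xx)
    (hn : ∀ n : ℕ, T n) (ha : ∀ f g, Sk f → Sk g → T f → T g → T (f + g))
    (hm : ∀ f g, Sk f → Sk g → T f → T g → T (f * g))
    (hp : ∀ f g, Sk f → Sk g → T f → T g → T (rp f g)) {f : Fn} (h : Sk f) : T f := by
  obtain ⟨s, e⟩ := h
  refine hc _ _ ?_ e.symm
  clear e
  induction s using code_ind with
  | hx n e => exact hc _ _ hx (fl_ev.symm.trans (.of_forall fun x => by simp [evr, fl, e]))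
  | hc n c e => exact hc _ _ (hn c) (.of_forall fun x => by simp [evr, e])
  | ha n s t _ _ _ a b e =>
    exact hc _ _ (ha _ _ (Sk.evr s) (Sk.evr t) a b) (.of_forall fun x => by simp [evr, e])
  | hm n s t _ _ _ a b e =>
    exact hc _ _ (hm _ _ (Sk.evr s) (Sk.evr t) a b) (.of_forall fun x => by simp [evr, e])
  | hp n s t _ _ _ a b e =>
    exact hc _ _ (hp _ _ (Sk.evr s) (Sk.evr t) a b) (.of_forall fun x => by simp [evr, rp, e])

section
variable {f g u : Fn}

theorem NN.ge_add (h : NN (f - u)) (h' : NN g) : NN (f + g - u) := (h.add h').eq (by ring)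

theorem NN.ge_mul (h : NN (f - u)) (hf : NN f) (h' : NN (g - 1)) : NN (f * g - u) :=
  (h.add (hf.mul h')).eq (by ring)

theorem NN.ge_rp (h : NN (f - u)) (hf : Sk f) (hg : Sk g) (h1 : NN (f - 1)) (h' : NN (g - 1)) :
    NN (rp f g - u) :=
  ((NN.powr hf Sk.one hg h' h1).eq (by funext x; simp [rp])).trans h

theorem NN.sub_congr (h : NN (f - u)) (e : f =ᶠ[Nf] g) : NN (g - u) := h.congr (e.sub .rfl)

theorem sk_two : Sk 2 := by simpa using Sk.nat 2

theorem nn_two_pow : NN (rp 2 xx - xx) :=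
  (nn_gr 1 1).eq (by funext x; simp [rp]; norm_num)

theorem nn_x_one : NN (xx - 1) := by simpa using nn_x_sub 1
theorem nn_x_two : NN (xx - 2) := by simpa using nn_x_sub 2

theorem poly_cases (p : ℕ[X]) : (∃ n : ℕ, p = C n) ∨ NN (pv p - xx) := by
  rcases eq_or_ne p.divX 0 with h | h
  · exact Or.inl ⟨_, divX_eq_zero_iff.1 h⟩
  · refine Or.inr ((((nn_pv_one h).mul Sk.xx.nn).add (nn_nat (p.coeff 0))).eq ?_)
    conv_rhs => rw [← p.divX_mul_X_add]
    simp
    ring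

/-- Polynomial or provably large. -/
def S2 (f : Fn) : Prop := (∃ p : ℕ[X], f =ᶠ[Nf] pv p) ∨ NN (f - rp 2 xx)

theorem S2.const (h : S2 f) : (∃ n : ℕ, f =ᶠ[Nf] n) ∨ NN (f - xx) := by
  rcases h with ⟨p, e⟩ | h
  · rcases poly_cases p with ⟨n, rfl⟩ | k
    · exact Or.inl ⟨n, by simpa using e⟩
    · exact Or.inr (k.sub_congr e.symm)
  · exact Or.inr (h.trans nn_two_pow)

theorem S2.tri (h : S2 f) : f =ᶠ[Nf] 0 ∨ f =ᶠ[Nf] 1 ∨ NN (f - 2) := by
  rcases h.const with ⟨n, e⟩ | h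
  · rcases n with _ | _ | n
    · exact Or.inl (by simpa using e)
    · exact Or.inr (Or.inl (by simpa using e))
    · exact Or.inr (Or.inr (((nn_nat n).eq (by push_cast; ring)).sub_congr e.symm))
  · exact Or.inr (Or.inr (h.trans nn_x_two))

theorem NN.two_one (h : NN (f - 2)) : NN (f - 1) := (h.add nn_one).eq (by ring)

theorem S2.bi (h : S2 f) : f =ᶠ[Nf] 0 ∨ NN (f - 1) :=
  h.tri.imp_right fun h => h.elim (fun e => (nn_zero.eq (by simp)).sub_congr e.symm) NN.two_one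

theorem rp_zero_left (h : f =ᶠ[Nf] 0) (h' : NN (g - 1)) : rp f g =ᶠ[Nf] 0 := by
  filter_upwards [h, h'.sound] with x a b
  rw [rp, a]
  exact zero_rpow (by simp at b; linarith)

theorem rp_one_left (h : f =ᶠ[Nf] 1) : rp f g =ᶠ[Nf] 1 := h.mono fun x a => by simp [rp, a]
theorem rp_zero_right (h : g =ᶠ[Nf] 0) : rp f g =ᶠ[Nf] 1 := h.mono fun x a => by simp [rp, a]

theorem sk_s2 (h : Sk f) : S2 f := by
  refine sk_ind (T := S2) (fun f g a e => a.imp (fun ⟨p, k⟩ => ⟨p, e.symm.trans k⟩)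
    fun k => k.sub_congr e) (Or.inl ⟨X, by simp⟩) (fun n => Or.inl ⟨n, by simp⟩) ?_ ?_ ?_ h
  · rintro f g hf hg (⟨p, a⟩ | a) (⟨q, b⟩ | b)
    · exact Or.inl ⟨p + q, by simpa using a.add b⟩
    · exact Or.inr (add_comm f g ▸ b.ge_add hf.nn)
    · exact Or.inr (a.ge_add hg.nn)
    · exact Or.inr (a.ge_add hg.nn)
  · intro f g hf hg a b
    rcases a.bi with a0 | a1
    · exact Or.inl ⟨0, by simpa using a0.mul (.refl _ g)⟩
    rcases b.bi with b0 | b1
    · exact Or.inl ⟨0, by simpa using (EventuallyEq.refl _ f).mul b0⟩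
    rcases a with ⟨p, a⟩ | a
    · rcases b with ⟨q, b⟩ | b
      · exact Or.inl ⟨p * q, by simpa using a.mul b⟩
      · exact Or.inr (mul_comm f g ▸ b.ge_mul hg.nn a1)
    · exact Or.inr (a.ge_mul hf.nn b1)
  · intro f g hf hg a b
    rcases b.bi with b0 | b1
    · exact Or.inl ⟨1, by simpa using rp_zero_right b0⟩
    rcases a.tri with a0 | a0 | a2
    · exact Or.inl ⟨0, by simpa using rp_zero_left a0 b1⟩
    · exact Or.inl ⟨1, by simpa using rp_one_left a0⟩
    rcases a with ⟨p, a⟩ | a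
    · rcases b.const with ⟨n, b⟩ | b
      · exact Or.inl ⟨p ^ n, (a.and b).mono fun x e => by simp [rp, e.1, e.2]⟩
      · exact Or.inr ((NN.powl' sk_two hf hg a2).trans
          (NN.powr sk_two Sk.xx hg b (nn_one.eq (by norm_num))))
    · exact Or.inr (a.ge_rp hf hg a2.two_one b1)

end

noncomputable def v5 (i : ℕ[X] × Fn) : Fn := pv i.1 * rp i.2 xx
def good5 (i : ℕ[X] × Fn) : Prop := Sk i.2 ∧ NN (i.2 - 1)

theorem good5.fp {i : ℕ[X] × Fn} (h : good5 i) : Fp i.2 := Fp.of_sk h.1 h.2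

theorem good5.nn {i : ℕ[X] × Fn} (h : good5 i) : NN (v5 i) := (sk_pv _).nn.mul h.fp.rp.nn

theorem gen5_mul {f g : Fn} (a : f ∈ Gen v5 good5) (b : g ∈ Gen v5 good5) : f * g ∈ Gen v5 good5 :=
  Gen.mul (fun i j h h' => Gen.of (i := (i.1 * j.1, i.2 * j.2))
    ⟨h.1.mul h'.1, h.2.ge_mul h.1.nn h'.2⟩ (by
      filter_upwards [rp_mul' h.1.nn.sound h'.1.nn.sound] with x e
      simp [v5, e]
      ring)) a b

theorem gen5_pv (p : ℕ[X]) : pv p ∈ Gen v5 good5 :=
  Gen.of (i := (p, 1)) ⟨Sk.one, by simpa using nn_zero⟩ (.of_forall fun x => by simp [v5, rp])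

theorem gen5_pow {f : Fn} (a : f ∈ Gen v5 good5) (n : ℕ) : f ^ n ∈ Gen v5 good5 := by
  induction n with
  | zero => simpa using gen5_pv 1
  | succ n ih => rw [pow_succ]; exact gen5_mul ih a

theorem sk_s3 {f : Fn} (h : Sk f) : f ∈ Gen v5 good5 ∨ NN (f - rp 2 (rp 2 xx)) := by
  refine sk_ind (T := fun f => f ∈ Gen v5 good5 ∨ NN (f - rp 2 (rp 2 xx)))
    (fun f g a e => a.imp (fun k => Gen.congr k e) fun k => k.sub_congr e)
    (Or.inl (by simpa using gen5_pv X)) (fun n => Or.inl (by simpa using gen5_pv n)) ?_ ?_ ?_ h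
  · rintro f g hf hg (a | a) (b | b)
    · exact Or.inl (add_mem a b)
    · exact Or.inr (add_comm f g ▸ b.ge_add hf.nn)
    · exact Or.inr (a.ge_add hg.nn)
    · exact Or.inr (a.ge_add hg.nn)
  · intro f g hf hg a b
    rcases (sk_s2 hf).bi with a0 | a1
    · exact Or.inl (Gen.congr (zero_mem _) (by simpa using (a0.mul (.refl _ g)).symm))
    rcases (sk_s2 hg).bi with b0 | b1
    · exact Or.inl (Gen.congr (zero_mem _) (by simpa using ((EventuallyEq.refl _ f).mul b0).symm))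
    rcases a with a | a
    · exact b.imp (gen5_mul a) fun b => mul_comm f g ▸ b.ge_mul hg.nn a1
    · exact Or.inr (a.ge_mul hf.nn b1)
  · intro f g hf hg a _
    have one : (1 : Fn) ∈ Gen v5 good5 := by simpa using gen5_pv 1
    rcases (sk_s2 hg).bi with b0 | b1
    · exact Or.inl (Gen.congr one (rp_zero_right b0).symm)
    rcases (sk_s2 hf).tri with a0 | a0 | a2
    · exact Or.inl (Gen.congr (zero_mem _) (rp_zero_left a0 b1).symm)
    · exact Or.inl (Gen.congr one (rp_one_left a0).symm)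
    rcases a with a | a
    · rcases (sk_s2 hg) with ⟨q, b⟩ | b
      · have k : good5 (1, rp f (pv q.divX)) := ⟨hf.rp (sk_pv _),
          (NN.powl' Sk.one hf (sk_pv q.divX) a2.two_one).eq (by funext x; simp [rp])⟩
        refine Or.inl (Gen.congr (gen5_mul (gen5_pow a (q.coeff 0)) (Gen.of k .rfl)) ?_)
        filter_upwards [b, a2.sound] with x e1 e2
        have : 0 < f x := by simp at e2; linarith
        rw [← q.divX_mul_X_add] at e1
        simp [v5, rp, e1, rpow_add this, rpow_mul this.le, mul_comm (f x ^ q.coeff 0)]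
      · exact Or.inr ((NN.powl' sk_two hf hg a2).trans
          (NN.powr sk_two (sk_two.rp Sk.xx) hg b (nn_one.eq (by norm_num))))
    · exact Or.inr (a.ge_rp hf hg a2.two_one b1)

/-- The function `x ^ (x + 1)`. -/
noncomputable def B1 : Fn := xx * rp xx xx
/-- The function `x ^ (x * x + x)`. -/
noncomputable def B2 : Fn := rp B1 xx

theorem sk_B1 : Sk B1 := Sk.xx.mul (Sk.xx.rp Sk.xx)
theorem fp_B1 : Fp B1 := Fp.xx.mul Fp.xx.rp

theorem nn_2x : NN (rp (2 * xx) xx - B1) := by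
  refine (nn_two_pow.mul Fp.xx.rp.nn).congr ?_
  filter_upwards [rp_mul' sk_two.nn.sound Sk.xx.nn.sound] with x e
  simp [B1, e]
  ring

theorem nn_22 (p : ℕ[X]) : NN (rp 2 (rp 2 xx) - rp (rp 2 (pv p)) xx) := by
  have h1 : rp 2 xx ∈ D2 := by simpa using rpn_D2 two_pos
  refine (NN.powr sk_two ((sk_pv p).mul Sk.xx) (sk_two.rp Sk.xx) (nn_D2 (sub_mem h1
    (mul_mem (pn_D2 p) xx_D2)) ?_) (nn_one.eq (by norm_num))).eq ?_
  · filter_upwards [EP.le (EP.gen p one_pos one_lt_two) two_pos 1, eventually_gt_atTop 0] with x e hx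
    refine sub_nonneg.2 (le_trans (by simpa [rp, mul_comm] using e)
      (rpow_le_rpow (by norm_num) (by norm_num) hx.le))
  · funext x
    simp [rp, rpow_mul]

theorem nn_2pow (n : ℕ) : NN (rp 2 xx - xx ^ n) := (nn_gr n 1).eq (by funext x; simp [rp]; norm_num)

theorem nn_two_two : NN (rp 2 xx - 2 * xx) :=
  ((nn_2pow 2).add (nn_x_two.mul Sk.xx.nn)).eq (by ring)

theorem sk_s4 {f : Fn} (h : Sk f) :
    (∃ o a, ∃ g ∈ EP a, f =ᶠ[Nf] W o + g) ∨ NN (f - B1) := by
  have two : Sk (2 * xx) := sk_two.mul Sk.xx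
  rcases (sk_s3 h) with h | h
  swap
  · exact Or.inr (h.trans ((nn_22 X).trans ((NN.powl' two (sk_two.rp (sk_pv X)) Sk.xx
      (by simpa using nn_two_two)).trans nn_2x)))
  refine (Gen.ind (T := fun f => NN f ∧ ((∃ o a, ∃ g ∈ EP a, f =ᶠ[Nf] W o + g) ∨ NN (f - B1)))
    (fun f g a e => ⟨a.1.congr e, a.2.imp (fun ⟨o, a, g, h1, h2⟩ => ⟨o, a, g, h1, e.symm.trans h2⟩)
      fun k => k.sub_congr e⟩) ⟨nn_zero, Or.inl ⟨0, 0, 0, zero_mem _, by simp⟩⟩ ?_ ?_ h).2
  · rintro f g ⟨a0, ⟨o, a, u, a1, a2⟩ | a⟩ ⟨b0, ⟨o', b, v, b1, b2⟩ | b⟩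
    · exact ⟨a0.add b0, Or.inl ⟨o + o', max a b, u + v, add_mem (EP.mono (le_max_left _ _) a1)
        (EP.mono (le_max_right _ _) b1), by rw [W_add, add_add_add_comm]; exact a2.add b2⟩⟩
    · exact ⟨a0.add b0, Or.inr (add_comm f g ▸ b.ge_add a0)⟩
    · exact ⟨a0.add b0, Or.inr (a.ge_add b0)⟩
    · exact ⟨a0.add b0, Or.inr (a.ge_add b0)⟩
  · rintro ⟨p, H⟩ hi
    refine ⟨hi.nn, ?_⟩
    rcases eq_or_ne p 0 with rfl | hp
    · exact Or.inl ⟨0, 0, 0, zero_mem _, by simp [v5]⟩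
    have big : NN (H - 2 * xx) → NN (v5 (p, H) - B1) := fun k =>
      (((NN.powl' two hi.1 Sk.xx k).trans nn_2x).ge_mul hi.fp.rp.nn (nn_pv_one hp)).eq
        (by rw [mul_comm]; rfl)
    rcases (sk_s2 hi.1) with ⟨q, e⟩ | k
    swap
    · exact Or.inr (big (k.trans nn_two_two))
    rw [← q.divX_mul_X_add, pv_add, pv_mul, pv_X, pv_C] at e
    change H =ᶠ[Nf] _ at e
    rcases (sk_s2 (sk_pv q.divX)).tri with k | k | k
    · have e' : H =ᶠ[Nf] (q.coeff 0 : ℕ) := (e.and k).mono fun x a => by simp [a.1, a.2]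
      obtain ⟨x, x1, x2⟩ := (hi.fp.pos.and e').exists
      have : 0 < q.coeff 0 := by simpa [x2] using x1
      exact Or.inl ⟨0, _, _, EP.gen p this (Nat.lt_succ_self _), by
        simpa [v5] using (EventuallyEq.refl _ (pv p)).mul (rp_congr e' .rfl)⟩
    · have e' : H =ᶠ[Nf] xx + (q.coeff 0 : ℕ) := (e.and k).mono fun x a => by simp [a.1, a.2]
      rcases poly_cases p with ⟨n, rfl⟩ | k'
      · exact Or.inl ⟨monomial (q.coeff 0) n, 0, 0, zero_mem _, by
          simpa [v5, W_mon] using (EventuallyEq.refl _ (n : Fn)).mul (rp_congr e' .rfl)⟩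
      · have := NN.powl' Sk.xx hi.1 Sk.xx (((nn_nat (q.coeff 0)).eq (by ring)).sub_congr e'.symm)
        exact Or.inr (((k'.mul hi.fp.rp.nn).add (Sk.xx.nn.mul this)).eq (by simp [v5, B1]; ring))
    · exact Or.inr (big ((((k.mul Sk.xx.nn).add (nn_nat (q.coeff 0))).eq (by ring)).sub_congr e.symm))

theorem sk_s5 {f : Fn} (h : Sk f) : f ∈ Gen v4 good4 ∨ NN (f - B2) := by
  rcases (sk_s3 h) with h | h
  swap
  · refine Or.inr (h.trans ((nn_22 (X * X)).trans (NN.powl' sk_B1 (sk_two.rp (sk_pv _)) Sk.xx ?_)))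
    refine NN.trans ((NN.powl' (sk_two.mul Sk.xx) (sk_two.rp Sk.xx) Sk.xx nn_two_two).eq ?_) nn_2x
    funext x
    simp [rp, rpow_mul]
  refine (Gen.ind (T := fun f => NN f ∧ (f ∈ Gen v4 good4 ∨ NN (f - B2)))
    (fun f g a e => ⟨a.1.congr e, a.2.imp (fun k => Gen.congr k e) fun k => k.sub_congr e⟩)
    ⟨nn_zero, Or.inl (zero_mem _)⟩ ?_ ?_ h).2
  · rintro f g ⟨a0, a | a⟩ ⟨b0, b | b⟩
    · exact ⟨a0.add b0, Or.inl (add_mem a b)⟩
    · exact ⟨a0.add b0, Or.inr (add_comm f g ▸ b.ge_add a0)⟩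
    · exact ⟨a0.add b0, Or.inr (a.ge_add b0)⟩
    · exact ⟨a0.add b0, Or.inr (a.ge_add b0)⟩
  · rintro ⟨p, G⟩ hi
    refine ⟨hi.nn, ?_⟩
    rcases eq_or_ne p 0 with rfl | hp
    · exact Or.inl (by simp [v5])
    rcases (sk_s4 hi.1) with ⟨o, a, g, h1, h2⟩ | k
    · refine Or.inl (Gen.of (i := (p.map (algebraMap ℕ ℚ), o, g)) ⟨⟨a, h1⟩, ?_⟩ ?_)
      · by_contra k
        push Not at k
        obtain ⟨x, x1, x2⟩ := (hi.fp.pos.and h2).exists
        simp only at k
        rw [x2] at x1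
        simp [k.1, k.2] at x1
      · rw [v4, pv_map]
        exact .mul .rfl (rp_congr h2.symm .rfl)
    · exact Or.inr (((NN.powl' sk_B1 hi.1 Sk.xx k).ge_mul hi.fp.rp.nn (nn_pv_one hp)).eq
        (by rw [mul_comm]; rfl))

theorem gen4_pv (Q : ℚ[X]) : pv Q ∈ Gen v4 good4 :=
  Gen.of (i := (Q, 0, pv (1 : ℕ[X]) * rp (1 : ℕ) xx)) ⟨⟨2, EP.gen 1 one_pos one_lt_two⟩, Or.inr fun e => by
    simpa [rp] using congrFun e 0⟩ (.of_forall fun x => by simp [v4, rp])

theorem gen4_neg {f : Fn} (h : f ∈ Gen v4 good4) : -f ∈ Gen v4 good4 :=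
  Gen.neg (fun i h => Gen.of (i := (-i.1, i.2)) h (by simp [v4])) h

theorem gen4_lt {f : Fn} (h : f ∈ Gen v4 good4) (n : ℕ) : NN (B2 - n * f) := by
  refine Gen.ind (T := fun f => ∀ n : ℕ, NN (B2 - n * f))
    (fun f g a e n => (a n).congr (.sub .rfl (.mul .rfl e))) (fun n => by simpa [B2] using fp_B1.rp.nn)
    (fun f g a b n => (((a (2 * n)).add (b (2 * n))).eq (by push_cast; ring)).cancel
      (Fp.nat two_pos)) ?_ h n
  rintro ⟨P, o, g⟩ ⟨⟨a, ha⟩, h0⟩ n
  have hs := (sk_W o).add (EP.sk ha)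
  rcases tot_pv P with k | k
  swap
  · exact (fp_B1.rp.nn.add (((nn_nat n).mul k).mul (hs.rp Sk.xx).nn)).eq (by simp [v4, B2]; ring)
  obtain ⟨K, hK⟩ := exists_nat_gt (pv o (exp 1) + 2)
  have K0 : 0 < K := by exact_mod_cast (by linarith [pv_nonneg o (exp_pos 1)] : (0 : ℝ) < K)
  have h1 := NN.powl' hs ((Sk.nat K).mul (Sk.xx.rp Sk.xx)) Sk.xx (nn_D2 (sub_mem
    (mul_mem (natCast_mem _ K) xxx_D2) (add_mem (W_D2 o) (EP.d2 ha))) (by
      filter_upwards [EP.xle' ha 0, (tendsto_U o).eventually_le_const (lt_add_one _),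
        eventually_gt_atTop 0] with x e1 e2 hx
      have := (div_le_iff₀ (xx_pos hx)).1 e2
      simp only [Pi.sub_apply, Pi.mul_apply, Pi.add_apply, Pi.natCast_apply]
      nlinarith [xx_pos hx]))
  have h2 : NN (rp xx xx - n * pv P * rp K xx) := by
    refine nn_D2 (sub_mem xxx_D2 (mul_mem (mul_mem (natCast_mem _ n) (pv_D2 P)) (rpn_D2 K0))) ?_
    obtain ⟨C, -, hC⟩ := (((Md.const (n : ℝ)).mul (md_pv P sc_id)).mul
      ((tm_rpn sc_id (isBigO_refl _ _) K0).md sc_id).1).le sc_id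
    filter_upwards [hC, tendsto_log_atTop.eventually_ge_atTop C, eventually_gt_atTop 0]
      with x e1 e2 hx
    refine sub_nonneg.2 ((le_abs_self _).trans (e1.trans ?_))
    rw [rp, rpow_def_of_pos hx]
    exact exp_le_exp.2 (mul_le_mul_of_nonneg_right e2 hx.le)
  refine ((h2.mul Fp.xx.rp.rp.nn).add (((nn_nat n).mul k).mul h1)).congr ?_
  filter_upwards [rp_mul' (nn_nat K).sound Fp.xx.rp.nn.sound,
    rp_mul' Sk.xx.nn.sound Fp.xx.rp.nn.sound] with x e e'
  simp [v4, B2, B1, e, e']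
  ring

/-- The completeness of the proof system below `B2`. -/
theorem complete {f g : Fn} (hf : Sk f) (hg : Sk g) :
    (NN (B2 - f - 1) ∧ NN (2 * g - 2 * f - 1)) ∨ NN (f - B2) ∨ NN (2 * f + 1 - 2 * g) := by
  rcases (sk_s5 hf) with a | a
  swap
  · exact Or.inr (Or.inl a)
  have one : (1 : Fn) ∈ Gen v4 good4 := by simpa using gen4_pv 1
  have h1 : NN (B2 - f - 1) := (gen4_lt (add_mem a one) 1).eq (by push_cast; ring)
  rcases (sk_s5 hg) with b | b
  · rcases tot_gen4 _ (add_mem (add_mem b b) (gen4_neg (add_mem (add_mem a a) one))) with k | k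
    · exact Or.inl ⟨h1, k.eq (by ring)⟩
    · exact Or.inr (Or.inr (k.eq (by ring)))
  · exact Or.inl ⟨h1, (((b.add b).add (h1.add h1)).add nn_one).eq (by ring)⟩

end Pool.Agent.MP_b50963_lc

end
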